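import Pool.Agent.H83.TU.UA
import Pool.Agent.H83.TK.SubD

/-!
# Theorem K (MP_e49dc9_ag), chapter CHAIN: definitions

`X : Mod k K` with `IsVar X`, `H` an ample Cartier divisor, `B = ⊕ L(n H)` the ring of the sections of its multiples.

* `HI H`: homogeneous ideals of `B`, given by subspaces `J n` of `L(n H)`; `J' ≤ J` means `J' n ≤ J n` for all `n`.
* `HI.at J x = J_x`: the functions `f` with `s * f ∈ J n` for some section `s` of `n H` which does not vanish at `x`.
  It is an ideal of `O x`.
* `HI.sec J W`: the functions `f` with `f * W.eq x ∈ J_x` for all `x` (the sections of `W` with values in the ideal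
  sheaf of `J`); `HI.h J W`: its dimension.
* `HI.top`: the ideal `B`; `van ζ`: the sections which vanish at the point `ζ`; `col J g c = (J : g)`, `g` of degree
  `c`; `ad J g c = J + B g`; `twi J E`: the `b` in `L(n H)` with `b * (n H - E).eq x ∈ J_x` for all `x`.
* `Noe H`: the ascending chain condition for homogeneous ideals.
* `Ser hX H`: restriction of sections to closed subvarieties (`subM hX ζ`, `resD`, `resS` of `H83/TK`) is onto for
  `W + n H`, `n` large (Serre).
* `FinX`, `FinZ`: finiteness.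
-/

set_option autoImplicit false

namespace Pool.Agent.H39.TK

open Pool.Agent.H54.RV Pool.Agent.H83.TU Pool.Agent.H83.TK

variable {k K : Type} [Field k] [Field K] [Algebra k K] {X : Mod k K}

/-- homogeneous ideals of the ring of the sections of the multiples of `H` -/
@[ext] structure HI (H : Cart X) where
  /-- the elements of degree `n` -/
  J : ℕ → Submodule k K
  le : ∀ n, J n ≤ secL H n
  mul : ∀ (m n : ℕ) (a b : K), a ∈ secL H m → b ∈ J n → a * b ∈ J (m + n)

instance (H : Cart X) : PartialOrder (HI H) := PartialOrder.lift HI.J fun _ _ h => HI.ext h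

theorem HI.le_iff {H : Cart X} (J J' : HI H) : J ≤ J' ↔ ∀ n, J.J n ≤ J'.J n := Iff.rfl

/-- the ascending chain condition for homogeneous ideals -/
def Noe (H : Cart X) : Prop := WellFoundedGT (HI H)

theorem smul_sec {D : Cart X} {s t : K} {m n : ℕ} (hs : Sec D m s) (ht : Sec D n t) : Sec D (m + n) (s * t) := by
  intro x
  have h1 := (X.O x).mul_mem (hs x) (ht x)
  have h2 : s * t * D.eq x ^ (m + n) = s * D.eq x ^ m * (t * D.eq x ^ n) := by ring
  rw [h2]
  exact h1

theorem smul_nz {D : Cart X} {s t : K} {m n : ℕ} {x : X.P} (hs : x ∈ nz D m s) (ht : x ∈ nz D n t) :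
    x ∈ nz D (m + n) (s * t) := by
  have h1 := un_mul hs ht
  have h2 : s * t * D.eq x ^ (m + n) = s * D.eq x ^ m * (t * D.eq x ^ n) := by ring
  change Un (X.O x) (s * t * D.eq x ^ (m + n))
  rw [h2]
  exact h1

theorem one_sec (D : Cart X) : Sec D 0 1 := by
  intro x
  rw [pow_zero, mul_one]
  exact (X.O x).one_mem

theorem one_nz (D : Cart X) (x : X.P) : x ∈ nz D 0 1 := by
  change Un (X.O x) (1 * D.eq x ^ 0)
  rw [pow_zero, mul_one]
  exact un_one _

namespace HI

variable {H : Cart X}

/-- the localization at the point `x` -/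
def at_ (J : HI H) (x : X.P) : Submodule k K where
  carrier := {f | ∃ (n : ℕ) (s : K), Sec H n s ∧ x ∈ nz H n s ∧ s * f ∈ J.J n}
  zero_mem' := ⟨0, 1, one_sec H, one_nz H x, by
    rw [mul_zero]
    exact (J.J 0).zero_mem⟩
  add_mem' := by
    rintro a b ⟨m, s, hs, hx, h⟩ ⟨n, t, ht, hy, h'⟩
    refine ⟨m + n, s * t, smul_sec (D := H) hs ht, smul_nz hx hy, ?_⟩
    have e1 : s * t * (a + b) = t * (s * a) + s * (t * b) := by ring
    rw [e1]
    refine (J.J (m + n)).add_mem ?_ (J.mul m n s _ hs h')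
    rw [add_comm m n]
    exact J.mul n m t _ ht h
  smul_mem' := by
    rintro c a ⟨m, s, hs, hx, h⟩
    refine ⟨m, s, hs, hx, ?_⟩
    rw [Algebra.mul_smul_comm]
    exact (J.J m).smul_mem c h

theorem mem_at (J : HI H) (x : X.P) (f : K) :
    f ∈ J.at_ x ↔ ∃ (n : ℕ) (s : K), Sec H n s ∧ x ∈ nz H n s ∧ s * f ∈ J.J n := Iff.rfl

/-- the sections of `W` with values in the ideal sheaf -/
def sec (J : HI H) (W : Cart X) : Submodule k K where
  carrier := {f | ∀ x, f * W.eq x ∈ J.at_ x}
  zero_mem' := fun x => by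
    rw [zero_mul]
    exact (J.at_ x).zero_mem
  add_mem' := fun {a b} ha hb x => by
    rw [add_mul]
    exact (J.at_ x).add_mem (ha x) (hb x)
  smul_mem' := fun c a ha x => by
    rw [Algebra.smul_mul_assoc]
    exact (J.at_ x).smul_mem c (ha x)

theorem mem_sec' (J : HI H) (W : Cart X) (f : K) : f ∈ J.sec W ↔ ∀ x, f * W.eq x ∈ J.at_ x := Iff.rfl

/-- the dimension of the space of the sections of `W` with values in the ideal sheaf -/
noncomputable def h (J : HI H) (W : Cart X) : ℕ := Module.finrank k (J.sec W)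

variable (H) in
/-- the whole ring -/
def top : HI H where
  J := secL H
  le _ := le_rfl
  mul _ _ _ _ ha hb := smul_sec (D := H) ha hb

end HI

/-- the sections which vanish at `ζ` -/
def van (H : Cart X) (ζ : X.P) : HI H where
  J n :=
    { carrier := {b | Sec H n b ∧ ¬ Un (X.O ζ) (b * H.eq ζ ^ n)}
      zero_mem' := ⟨(secL H n).zero_mem, fun h => h.1 (zero_mul _)⟩
      add_mem' := by
        rintro a b ⟨ha, ha'⟩ ⟨hb, hb'⟩
        refine ⟨(secL H n).add_mem ha hb, fun h => ?_⟩
        rw [add_mul] at h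
        rcases un_add (ha ζ) (hb ζ) h with h1 | h1
        · exact ha' h1
        · exact hb' h1
      smul_mem' := by
        rintro c a ⟨ha, ha'⟩
        refine ⟨(secL H n).smul_mem c ha, fun h => ha' ?_⟩
        have e1 : c • a * H.eq ζ ^ n = algebraMap k K c * (a * H.eq ζ ^ n) := by
          rw [Algebra.smul_def, mul_assoc]
        rw [e1] at h
        exact ((un_mul_iff ((X.O ζ).algebraMap_mem c) (ha ζ)).1 h).2 }
  le _ _ h := h.1
  mul m n a b ha hb := by
    refine ⟨smul_sec (D := H) ha hb.1, fun h => hb.2 ?_⟩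
    have e1 : a * b * H.eq ζ ^ (m + n) = a * H.eq ζ ^ m * (b * H.eq ζ ^ n) := by ring
    rw [e1] at h
    exact ((un_mul_iff (ha ζ) (hb.1 ζ)).1 h).2

theorem mem_van (H : Cart X) (ζ : X.P) (n : ℕ) (b : K) :
    b ∈ (van H ζ).J n ↔ Sec H n b ∧ ¬ Un (X.O ζ) (b * H.eq ζ ^ n) := Iff.rfl

/-- the quotient ideal `(J : g)`, for `g` of degree `c` -/
def col {H : Cart X} (J : HI H) (g : K) (c : ℕ) : HI H where
  J n :=
    { carrier := {b | Sec H n b ∧ b * g ∈ J.J (n + c)}
      zero_mem' := ⟨(secL H n).zero_mem, by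
        rw [zero_mul]
        exact (J.J _).zero_mem⟩
      add_mem' := by
        rintro a b ⟨ha, ha'⟩ ⟨hb, hb'⟩
        refine ⟨(secL H n).add_mem ha hb, ?_⟩
        rw [add_mul]
        exact (J.J _).add_mem ha' hb'
      smul_mem' := by
        rintro d a ⟨ha, ha'⟩
        refine ⟨(secL H n).smul_mem d ha, ?_⟩
        rw [Algebra.smul_mul_assoc]
        exact (J.J _).smul_mem d ha' }
  le _ _ h := h.1
  mul m n a b ha hb := by
    refine ⟨smul_sec (D := H) ha hb.1, ?_⟩
    rw [mul_assoc, add_assoc]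
    exact J.mul m (n + c) a _ ha hb.2

theorem mem_col {H : Cart X} (J : HI H) (g : K) (c n : ℕ) (b : K) :
    b ∈ (col J g c).J n ↔ Sec H n b ∧ b * g ∈ J.J (n + c) := Iff.rfl

/-- the ideal `J + B g`, for `g` of degree `c` -/
def ad {H : Cart X} (J : HI H) (g : K) (c : ℕ) (hg : g ∈ secL H c) : HI H where
  J n :=
    { carrier := {a | ∃ j ∈ J.J n, ∃ b, ((c ≤ n ∧ Sec H (n - c) b) ∨ b = 0) ∧ a = j + b * g}
      zero_mem' := ⟨0, (J.J n).zero_mem, 0, Or.inr rfl, by rw [zero_mul, add_zero]⟩
      add_mem' := by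
        rintro a a' ⟨j, hj, b, hb, rfl⟩ ⟨j', hj', b', hb', rfl⟩
        refine ⟨j + j', (J.J n).add_mem hj hj', b + b', ?_, by ring⟩
        rcases hb with hb | rfl
        · rcases hb' with hb' | rfl
          · exact Or.inl ⟨hb.1, (secL H (n - c)).add_mem hb.2 hb'.2⟩
          · rw [add_zero]
            exact Or.inl hb
        · rw [zero_add]
          exact hb'
      smul_mem' := by
        rintro d a ⟨j, hj, b, hb, rfl⟩
        refine ⟨d • j, (J.J n).smul_mem d hj, d • b, ?_, ?_⟩
        · rcases hb with hb | rfl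
          · exact Or.inl ⟨hb.1, (secL H (n - c)).smul_mem d hb.2⟩
          · exact Or.inr (smul_zero d)
        · rw [smul_add, Algebra.smul_mul_assoc] }
  le n a h := by
    obtain ⟨j, hj, b, hb, rfl⟩ := h
    refine (secL H n).add_mem (J.le n hj) ?_
    rcases hb with hb | rfl
    · have h1 : Sec H (n - c + c) (b * g) := smul_sec (D := H) hb.2 hg
      rw [Nat.sub_add_cancel hb.1] at h1
      exact h1
    · rw [zero_mul]
      exact (secL H n).zero_mem
  mul m n a a' ha h := by
    obtain ⟨j, hj, b, hb, rfl⟩ := h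
    refine ⟨a * j, J.mul m n a j ha hj, a * b, ?_, by ring⟩
    rcases hb with hb | rfl
    · refine Or.inl ⟨by omega, ?_⟩
      have h1 : Sec H (m + (n - c)) (a * b) := smul_sec (D := H) ha hb.2
      have h2 : m + (n - c) = m + n - c := by omega
      rw [h2] at h1
      exact h1
    · exact Or.inr (mul_zero a)

theorem mem_ad {H : Cart X} (J : HI H) (g : K) (c : ℕ) (hg : g ∈ secL H c) (n : ℕ) (a : K) :
    a ∈ (ad J g c hg).J n ↔ ∃ j ∈ J.J n, ∃ b, ((c ≤ n ∧ Sec H (n - c) b) ∨ b = 0) ∧ a = j + b * g := Iff.rfl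

/-- restriction of sections to closed subvarieties is onto for large multiples -/
def Ser (hX : IsVar X) (H : Cart X) : Prop :=
  ∀ (ζ : X.P) (W : Cart X), ∃ n₀ : ℕ, ∀ n ≥ n₀, Function.Surjective (resS hX ζ (W * H ^ n) 1)

variable (X) in
/-- the spaces of sections are finite dimensional -/
def FinX : Prop := ∀ D : Cart X, Module.Finite k (secL D 1)

/-- the spaces of sections on closed subvarieties are finite dimensional -/
def FinZ (hX : IsVar X) : Prop := ∀ ζ : X.P, FinX (subM hX ζ)

end Pool.Agent.H39.TK
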