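import Pool.Agent.H39.TK.Col

/-!
# Theorem K, chapter CHAIN: homogeneous prime ideals

`pri`: a homogeneous prime ideal `P` with `1 ∉ P`: either `P_x = O x` for all `x`, or `P` is the ideal `van H ζ` of the
sections which vanish at a point `ζ`.
-/

set_option autoImplicit false

namespace Pool.Agent.H39.TK

open Pool.Agent.H54.RV Pool.Agent.H83.TU Pool.Agent.H83.TK

variable {k K : Type} [Field k] [Field K] [Algebra k K] {X : Mod k K} {H : Cart X}

theorem sec_pow {n : ℕ} {s : K} (hs : Sec H n s) (i : ℕ) : Sec H (n * i) (s ^ i) := by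
  intro y
  rw [pow_mul, ← mul_pow]
  exact (X.O y).pow_mem (hs y) i

/-- prime ideals -/
def PrI (P : HI H) : Prop :=
  (1 : K) ∉ P.J 0 ∧
    ∀ (m n : ℕ) (a b : K), Sec H m a → Sec H n b → a * b ∈ P.J (m + n) → a ∈ P.J m ∨ b ∈ P.J n

theorem pr_pow {P : HI H} (hP : PrI P) {m : ℕ} {b : K} (hb : Sec H m b) (i : ℕ) (h : b ^ i ∈ P.J (m * i)) :
    b ∈ P.J m := by
  induction i with
  | zero => exact absurd (by rwa [pow_zero, mul_zero] at h) hP.1
  | succ i ih =>
    rw [pow_succ, mul_add, mul_one] at h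
    rcases hP.2 _ _ _ _ (sec_pow hb i) hb h with h1 | h1
    · exact ih h1
    · exact h1

theorem pr_canc {P : HI H} (hP : PrI P) {n : ℕ} {s : K} (hs : Sec H n s) (hsP : s ∉ P.J n) (i m : ℕ) (b : K)
    (hb : Sec H m b) (h : s ^ i * b ∈ P.J (n * i + m)) : b ∈ P.J m := by
  rcases hP.2 _ _ _ _ (sec_pow hs i) hb h with h1 | h1
  · exact absurd (pr_pow hP hs i h1) hsP
  · exact h1

theorem ext_nz (hX : IsVar X) {n : ℕ} {s : K} (hs : Sec H n s) (a : K) (ha : a ∈ X.sec (nz H n s)) :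
    ∃ N : ℕ, Sec H (n * N) (s ^ N * a) := by
  obtain ⟨N, hN⟩ := ext_sec hX H 1 n s a hs (fun y hy => by
    rw [one_eq, mul_one]
    exact (mem_sec _ _).1 ha y hy)
  refine ⟨N, fun y => ?_⟩
  have h1 := hN N le_rfl y
  rw [one_eq, mul_one] at h1
  rw [pow_mul]
  exact h1

/-- the ideal of the functions on the set where `s` does not vanish -/
def idl (hX : IsVar X) (P : HI H) {n : ℕ} {s : K} (hs : Sec H n s) : Ideal (X.sec (nz H n s)) where
  carrier := {a | ∃ j : ℕ, s ^ j * (a : K) ∈ P.J (n * j)}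
  zero_mem' := ⟨0, by
    have h1 : s ^ 0 * ((0 : X.sec (nz H n s)) : K) = 0 := mul_zero _
    rw [h1]
    exact (P.J _).zero_mem⟩
  add_mem' := by
    rintro a b ⟨i, hi⟩ ⟨j, hj⟩
    refine ⟨i + j, ?_⟩
    have h1 := P.mul (n * j) (n * i) _ _ (sec_pow hs j) hi
    have h2 := P.mul (n * i) (n * j) _ _ (sec_pow hs i) hj
    rw [← mul_add, add_comm j i] at h1
    rw [← mul_add] at h2
    have e1 : s ^ (i + j) * ((a + b : X.sec (nz H n s)) : K) = s ^ j * (s ^ i * a) + s ^ i * (s ^ j * b) := by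
      change s ^ (i + j) * ((a : K) + b) = _
      ring
    rw [e1]
    exact (P.J _).add_mem h1 h2
  smul_mem' := by
    rintro c a ⟨i, hi⟩
    obtain ⟨N, hN⟩ := ext_nz hX hs c.1 c.2
    refine ⟨N + i, ?_⟩
    have h1 := P.mul (n * N) (n * i) _ _ hN hi
    rw [← mul_add] at h1
    have e1 : s ^ (N + i) * ((c • a : X.sec (nz H n s)) : K) = s ^ N * c * (s ^ i * a) := by
      change s ^ (N + i) * ((c : K) * a) = _
      ring
    rw [e1]
    exact h1

theorem mem_idl (hX : IsVar X) (P : HI H) {n : ℕ} {s : K} (hs : Sec H n s) (a : X.sec (nz H n s)) :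
    a ∈ idl hX P hs ↔ ∃ j : ℕ, s ^ j * (a : K) ∈ P.J (n * j) := Iff.rfl

theorem idl_prime (hX : IsVar X) {P : HI H} (hP : PrI P) {n : ℕ} {s : K} (hs : Sec H n s) (hsP : s ∉ P.J n) :
    (idl hX P hs).IsPrime := by
  rw [Ideal.isPrime_iff]
  constructor
  · rw [Ne, Ideal.eq_top_iff_one]
    rintro ⟨j, hj⟩
    have h1 : s ^ j ∈ P.J (n * j) := by
      have h2 : s ^ j * ((1 : X.sec (nz H n s)) : K) = s ^ j := mul_one _
      rwa [h2] at hj
    exact hsP (pr_pow hP hs j h1)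
  · rintro a b ⟨j, hj⟩
    obtain ⟨M, hM⟩ := ext_nz hX hs a.1 a.2
    obtain ⟨N, hN⟩ := ext_nz hX hs b.1 b.2
    have h1 := P.mul (n * (M + N)) (n * j) _ _ (sec_pow hs (M + N)) hj
    have e1 : s ^ (M + N) * (s ^ j * ((a * b : X.sec (nz H n s)) : K)) =
        s ^ M * a * (s ^ j * (s ^ N * b)) := by
      change s ^ (M + N) * (s ^ j * ((a : K) * b)) = _
      ring
    have e2 : n * (M + N) + n * j = n * M + (n * j + n * N) := by ring
    rw [e1, e2] at h1
    rcases hP.2 _ _ _ _ hM (smul_sec (sec_pow hs j) hN) h1 with h2 | h2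
    · exact Or.inl ⟨M, h2⟩
    · exact Or.inr ⟨N, pr_canc hP hs hsP j _ _ hN h2⟩

theorem pri (hX : IsVar X) (hγ : ∃ γ, Gen X γ) (hH : Ample H) (P : HI H) (hP : PrI P) :
    (∀ x, (1 : K) ∈ P.at_ x) ∨ ∃ ζ, P = van H ζ := by
  by_cases hall : ∀ (n : ℕ) (s : K), 1 ≤ n → Sec H n s → X.aff (nz H n s) → s ∈ P.J n
  · left
    intro x
    obtain ⟨n, hn, s, hs, hx, haff⟩ := hH x
    exact ⟨n, s, hs, hx, by
      rw [mul_one]
      exact hall n s hn hs haff⟩
  right
  push Not at hall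
  obtain ⟨n, s, hn, hs, haff, hsP⟩ := hall
  obtain ⟨γ, hγ⟩ := hγ
  have hs0 : s ≠ 0 := by
    rintro rfl
    exact hsP (P.J n).zero_mem
  have hne : (nz H n s).Nonempty := by
    refine ⟨γ, ?_⟩
    have h1 : ∀ a : K, a ∈ X.O γ := fun a => by
      rw [hγ.top]
      trivial
    exact ⟨mul_ne_zero hs0 (pow_ne_zero n (H.ne γ)), h1 _, h1 _⟩
  obtain ⟨ζ, hζ, hI⟩ := hX.prime _ haff hne (idl hX P hs) (idl_prime hX hP hs hsP)
  have hζ' : Un (X.O ζ) (s * H.eq ζ ^ n) := hζ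
  refine ⟨ζ, ?_⟩
  have key : ∀ (m : ℕ) (b : K), Sec H m b → (b ∈ P.J m ↔ ¬ Un (X.O ζ) (b * H.eq ζ ^ m)) := by
    intro m b hb
    have hmem : b ^ n / s ^ m ∈ X.sec (nz H n s) := by
      rw [mem_sec]
      intro y hy
      have hy' : Un (X.O y) (s * H.eq y ^ n) := hy
      have hHy := H.ne y
      have e1 : b ^ n / s ^ m = (b * H.eq y ^ m) ^ n * ((s * H.eq y ^ n) ^ m)⁻¹ := by
        rw [mul_pow, mul_pow, ← pow_mul, ← pow_mul, mul_comm n m]
        field_simp
      rw [e1]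
      exact (X.O y).mul_mem ((X.O y).pow_mem (hb y) n) (un_pow hy' m).2.2
    have h1 : Un (X.O ζ) (b ^ n / s ^ m) ↔ Un (X.O ζ) (b * H.eq ζ ^ m) := by
      have hHy := H.ne ζ
      have e1 : b ^ n / s ^ m = (b * H.eq ζ ^ m) ^ n * ((s * H.eq ζ ^ n) ^ m)⁻¹ := by
        rw [mul_pow, mul_pow, ← pow_mul, ← pow_mul, mul_comm n m]
        field_simp
      rw [e1, un_mul_un (un_inv (un_pow hζ' m)), un_pow_iff (hb ζ) hn]
    have h2 : (⟨b ^ n / s ^ m, hmem⟩ : X.sec (nz H n s)) ∈ idl hX P hs ↔ b ∈ P.J m := by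
      rw [mem_idl]
      constructor
      · rintro ⟨j, hj⟩
        have h3 := P.mul (n * m) (n * j) _ _ (sec_pow hs m) hj
        have e1 : s ^ m * (s ^ j * (b ^ n / s ^ m)) = s ^ j * b ^ n := by
          field_simp
        have e2 : n * m + n * j = n * j + m * n := by ring
        change s ^ m * (s ^ j * (b ^ n / s ^ m)) ∈ _ at h3
        rw [e1, e2] at h3
        exact pr_pow hP hb n (pr_canc hP hs hsP j _ _ (sec_pow hb n) h3)
      · intro hbP
        refine ⟨m, ?_⟩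
        have e1 : s ^ m * (b ^ n / s ^ m) = b ^ (n - 1) * b := by
          rw [← pow_succ, Nat.sub_add_cancel hn]
          field_simp
        change s ^ m * (b ^ n / s ^ m) ∈ _
        rw [e1]
        have h3 := P.mul (m * (n - 1)) m _ _ (sec_pow hb (n - 1)) hbP
        have e2 : m * (n - 1) + m = n * m := by
          obtain ⟨i, rfl⟩ : ∃ i, n = i + 1 := ⟨n - 1, by omega⟩
          rw [Nat.add_sub_cancel]
          ring
        rwa [e2] at h3
    rw [← h2, hI, h1]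
  apply le_antisymm
  · intro m b hb
    exact ⟨P.le m hb, (key m b (P.le m hb)).1 hb⟩
  · rintro m b ⟨hb, hb'⟩
    exact (key m b hb).2 hb'

end Pool.Agent.H39.TK
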