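import Pool.Agent.H39.TK.At

/-!
# Theorem K, chapter CHAIN: twists of homogeneous ideals by effective divisors

`twi J E`: the `b` in `L(n H)` with `b * (n H - E).eq x ∈ J_x` for all `x`.
* `twi_at`: `(twi J E)_x = E.eq x * J_x`.
* `twi_sec`: the sections of `W` with values in the ideal sheaf of `twi J E` are the sections of `W - E` with values in
  the ideal sheaf of `J`.
* `secv x W`: the sections of `W` which vanish at `x`, `hv x W` its dimension; `top_sec`, `van_sec`.
-/

set_option autoImplicit false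

namespace Pool.Agent.H39.TK

open Pool.Agent.H54.RV Pool.Agent.H83.TU Pool.Agent.H83.TK

variable {k K : Type} [Field k] [Field K] [Algebra k K] {X : Mod k K}

/-- the sections of `W` which vanish at `x` -/
def secv (x : X.P) (W : Cart X) : Submodule k K where
  carrier := {f | Sec W 1 f ∧ ¬ Un (X.O x) (f * W.eq x)}
  zero_mem' := ⟨(secL W 1).zero_mem, fun h => h.1 (zero_mul _)⟩
  add_mem' := by
    rintro a b ⟨ha, ha'⟩ ⟨hb, hb'⟩
    refine ⟨(secL W 1).add_mem ha hb, fun h => ?_⟩
    rw [add_mul] at h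
    have h1 := ha x
    have h2 := hb x
    rw [pow_one] at h1 h2
    rcases un_add h1 h2 h with h3 | h3
    · exact ha' h3
    · exact hb' h3
  smul_mem' := by
    rintro c a ⟨ha, ha'⟩
    refine ⟨(secL W 1).smul_mem c ha, fun h => ha' ?_⟩
    have e1 : c • a * W.eq x = algebraMap k K c * (a * W.eq x) := by
      rw [Algebra.smul_def, mul_assoc]
    have h1 := ha x
    rw [pow_one] at h1
    rw [e1] at h
    exact ((un_mul_iff ((X.O x).algebraMap_mem c) h1).1 h).2

theorem mem_secv (x : X.P) (W : Cart X) (f : K) : f ∈ secv x W ↔ Sec W 1 f ∧ ¬ Un (X.O x) (f * W.eq x) := Iff.rfl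

/-- the dimension of the space of the sections of `W` which vanish at `x` -/
noncomputable def hv (x : X.P) (W : Cart X) : ℕ := Module.finrank k (secv x W)

variable {H : Cart X}

/-- the twist of a homogeneous ideal by an effective divisor -/
def twi (hX : IsVar X) (hH : Ample H) (J : HI H) (E : Cart X) (hE : Effective E) : HI H where
  J n :=
    { carrier := {b | ∀ x, b * H.eq x ^ n * (E.eq x)⁻¹ ∈ J.at_ x}
      zero_mem' := fun x => by
        rw [zero_mul, zero_mul]
        exact (J.at_ x).zero_mem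
      add_mem' := fun {a b} ha hb x => by
        rw [add_mul, add_mul]
        exact (J.at_ x).add_mem (ha x) (hb x)
      smul_mem' := fun c a ha x => by
        rw [Algebra.smul_mul_assoc, Algebra.smul_mul_assoc]
        exact (J.at_ x).smul_mem c (ha x) }
  le n b hb := fun x => by
    have h1 := (X.O x).mul_mem (at_le J x _ (hb x)) (hE x)
    rwa [inv_mul_cancel_right₀ (E.ne x)] at h1
  mul m n a b ha hb := fun x => by
    have h1 := at_smul hX hH J x _ _ (ha x) (hb x)
    have e1 : a * H.eq x ^ m * (b * H.eq x ^ n * (E.eq x)⁻¹) = a * b * H.eq x ^ (m + n) * (E.eq x)⁻¹ := by ring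
    rwa [e1] at h1

theorem mem_twi (hX : IsVar X) (hH : Ample H) (J : HI H) (E : Cart X) (hE : Effective E) (n : ℕ) (b : K) :
    b ∈ (twi hX hH J E hE).J n ↔ ∀ x, b * H.eq x ^ n * (E.eq x)⁻¹ ∈ J.at_ x := Iff.rfl

theorem twi_at (hX : IsVar X) (hH : Ample H) (J : HI H) (E : Cart X) (hE : Effective E) (x : X.P) (f : K) :
    f ∈ (twi hX hH J E hE).at_ x ↔ f * (E.eq x)⁻¹ ∈ J.at_ x := by
  constructor
  · rintro ⟨n, s, hs, hx, h⟩
    have h1 := h x
    have e1 : s * f * H.eq x ^ n * (E.eq x)⁻¹ = s * H.eq x ^ n * (f * (E.eq x)⁻¹) := by ring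
    rw [e1, at_un hX hH J x _ _ hx] at h1
    exact h1
  · rintro ⟨n, s, hs, hx, h⟩
    have hEx := E.ne x
    obtain ⟨m, h0⟩ := lf hX H E⁻¹ hH x (E.eq x) (by
      rw [inv_eq, mul_inv_cancel₀ hEx]
      exact (X.O x).one_mem)
    obtain ⟨t, ht1, ht2, ht3⟩ := h0 m le_rfl
    refine ⟨m + n, t * s, smul_sec ht1 hs, smul_nz ht2 hx, fun y => ?_⟩
    have h1 := ht3 y
    rw [pow_one, mul_eq, pow_eq, inv_eq] at h1
    have h2 := at_smul hX hH J y _ _ h1 (at_of_mem hX hH J y n _ h)
    have hEy := E.ne y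
    have e1 : t * E.eq x * (H.eq y ^ m * (E.eq y)⁻¹) * (s * (f * (E.eq x)⁻¹) * H.eq y ^ n) =
        t * s * f * H.eq y ^ (m + n) * (E.eq y)⁻¹ := by
      rw [pow_add]
      field_simp
    rwa [e1] at h2

theorem twi_sec (hX : IsVar X) (hH : Ample H) (J : HI H) (E : Cart X) (hE : Effective E) (W : Cart X) :
    (twi hX hH J E hE).sec W = J.sec (W * E⁻¹) := by
  ext f
  rw [HI.mem_sec', HI.mem_sec']
  refine forall_congr' fun x => ?_
  rw [twi_at, mul_eq, inv_eq, mul_assoc]

theorem twi_h (hX : IsVar X) (hH : Ample H) (J : HI H) (E : Cart X) (hE : Effective E) (W : Cart X) :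
    (twi hX hH J E hE).h W = J.h (W * E⁻¹) := by
  rw [HI.h, HI.h, twi_sec]

theorem one_eff : Effective (1 : Cart X) := fun x => (X.O x).one_mem

theorem twi_le (hX : IsVar X) (hH : Ample H) (J : HI H) (E : Cart X) (hE : Effective E) :
    twi hX hH J E hE ≤ twi hX hH J 1 one_eff := by
  intro n b hb x
  have h1 := at_smul hX hH J x _ _ (hE x) (hb x)
  have hEx := E.ne x
  have e1 : E.eq x * (b * H.eq x ^ n * (E.eq x)⁻¹) = b * H.eq x ^ n * ((1 : Cart X).eq x)⁻¹ := by
    rw [one_eq]
    field_simp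
  rwa [e1] at h1

theorem twi_same (hX : IsVar X) (hH : Ample H) (J : HI H) (E : Cart X) (hE : Effective E) (x : X.P)
    (hx : Un (X.O x) (E.eq x)) : (twi hX hH J E hE).at_ x = (twi hX hH J 1 one_eff).at_ x := by
  ext f
  rw [twi_at, twi_at, one_eq, inv_one, mul_one, mul_comm, at_un hX hH J x _ _ (un_inv hx)]

theorem top_sec (hX : IsVar X) (hH : Ample H) (W : Cart X) : (HI.top H).sec W = secL W 1 := by
  ext f
  rw [HI.mem_sec', mem_secL]
  refine forall_congr' fun x => ?_
  rw [top_at hX hH, pow_one]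

theorem van_sec (hX : IsVar X) (hH : Ample H) (x : X.P) (W : Cart X) : (van H x).sec W = secv x W := by
  ext f
  rw [HI.mem_sec', mem_secv]
  constructor
  · intro h
    refine ⟨fun y => ?_, ?_⟩
    · rw [pow_one]
      exact at_le _ y _ (h y)
    · exact ((van_at hX hH x x _).1 (h x)).2 specializes_rfl
  · rintro ⟨h1, h2⟩ y
    have h3 := h1 y
    rw [pow_one] at h3
    rw [van_at hX hH]
    refine ⟨h3, fun hxy h4 => h2 ?_⟩
    have h5 := quo_un W x y hxy
    have e1 : f * W.eq y = f * W.eq x * (W.eq y / W.eq x) := by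
      have := W.ne x
      field_simp
    rw [e1, un_mul_un h5] at h4
    exact h4

theorem top_h (hX : IsVar X) (hH : Ample H) (W : Cart X) : (HI.top H).h W = h0 W 1 := by
  rw [HI.h, top_sec hX hH]
  rfl

theorem van_h (hX : IsVar X) (hH : Ample H) (x : X.P) (W : Cart X) : (van H x).h W = hv x W := by
  rw [HI.h, van_sec hX hH]
  rfl

end Pool.Agent.H39.TK
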