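import Pool.Agent.H39.TK.Chn
import Pool.Agent.H39.TK.Twi

/-!
# Theorem K, chapter CHAIN: the chain lemma for an effective divisor

* `chain_twi`: `J` a homogeneous ideal, `E` effective: the chain lemma for `twi J E ≤ twi J 1`.
* `chain_eff`: `E` effective.  There are finitely many points `ζ i` of the support of `E` and degrees `c i` with
  `h0 W ≤ h0 (W - E) + ∑ i, h0 (W - c i H on the closure of ζ i)` for ALL `W`, and equality for `W + n H`,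
  `n ≥ n₀ (W)`.
* `chain_van`: the same for `hv x` (the sections which vanish at the point `x`).
-/

set_option autoImplicit false

namespace Pool.Agent.H39.TK

open Pool.Agent.H54.RV Pool.Agent.H83.TU Pool.Agent.H83.TK

variable {k K : Type} [Field k] [Field K] [Algebra k K] {X : Mod k K}

theorem chain_twi (hX : IsVar X) (hγ : ∃ γ, Gen X γ) (H : Cart X) (hH : Ample H) (hN : Noe H) (hF : FinX X)
    (hZ : FinZ hX) (hS : Ser hX H) (J : HI H) (E : Cart X) (hE : Effective E) :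
    ∃ (r : ℕ) (ζ : Fin r → X.P) (c : Fin r → ℕ),
      (∀ W : Cart X, J.h W ≤ J.h (W * E⁻¹) + ∑ i, h0 (resD hX (ζ i) (W * (H ^ c i)⁻¹)) 1) ∧
      (∀ W : Cart X, ∃ n₀ : ℕ, ∀ n ≥ n₀,
        J.h (W * H ^ n) = J.h (W * H ^ n * E⁻¹) + ∑ i, h0 (resD hX (ζ i) (W * H ^ n * (H ^ c i)⁻¹)) 1) ∧
      ∀ i, ¬ Un (X.O (ζ i)) (E.eq (ζ i)) := by
  obtain ⟨r, ζ, c, ha, hb, hc⟩ := chain hX hγ H hH hN hF hZ hS _ _ (twi_le hX hH J E hE)
  have h1 : ∀ W : Cart X, (twi hX hH J 1 one_eff).h W = J.h W := by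
    intro W
    rw [twi_h, inv_one, mul_one]
  refine ⟨r, ζ, c, fun W => ?_, fun W => ?_, fun i hu => hc i (twi_same hX hH J E hE (ζ i) hu)⟩
  · have h2 := ha W
    rwa [h1, twi_h] at h2
  · obtain ⟨n₀, h0⟩ := hb W
    refine ⟨n₀, fun n hn => ?_⟩
    have h2 := h0 n hn
    rwa [h1, twi_h] at h2

theorem chain_eff (hX : IsVar X) (hγ : ∃ γ, Gen X γ) (H : Cart X) (hH : Ample H) (hN : Noe H) (hF : FinX X)
    (hZ : FinZ hX) (hS : Ser hX H) (E : Cart X) (hE : Effective E) :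
    ∃ (r : ℕ) (ζ : Fin r → X.P) (c : Fin r → ℕ),
      (∀ W : Cart X, h0 W 1 ≤ h0 (W * E⁻¹) 1 + ∑ i, h0 (resD hX (ζ i) (W * (H ^ c i)⁻¹)) 1) ∧
      (∀ W : Cart X, ∃ n₀ : ℕ, ∀ n ≥ n₀,
        h0 (W * H ^ n) 1 = h0 (W * H ^ n * E⁻¹) 1 + ∑ i, h0 (resD hX (ζ i) (W * H ^ n * (H ^ c i)⁻¹)) 1) ∧
      ∀ i, ¬ Un (X.O (ζ i)) (E.eq (ζ i)) := by
  obtain ⟨r, ζ, c, ha, hb, hc⟩ := chain_twi hX hγ H hH hN hF hZ hS (HI.top H) E hE
  refine ⟨r, ζ, c, fun W => ?_, fun W => ?_, hc⟩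
  · have h2 := ha W
    rwa [top_h hX hH, top_h hX hH] at h2
  · obtain ⟨n₀, h0⟩ := hb W
    refine ⟨n₀, fun n hn => ?_⟩
    have h2 := h0 n hn
    rwa [top_h hX hH, top_h hX hH] at h2

theorem chain_van (hX : IsVar X) (hγ : ∃ γ, Gen X γ) (H : Cart X) (hH : Ample H) (hN : Noe H) (hF : FinX X)
    (hZ : FinZ hX) (hS : Ser hX H) (x : X.P) (E : Cart X) (hE : Effective E) :
    ∃ (r : ℕ) (ζ : Fin r → X.P) (c : Fin r → ℕ),
      (∀ W : Cart X, hv x W ≤ hv x (W * E⁻¹) + ∑ i, h0 (resD hX (ζ i) (W * (H ^ c i)⁻¹)) 1) ∧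
      (∀ W : Cart X, ∃ n₀ : ℕ, ∀ n ≥ n₀,
        hv x (W * H ^ n) = hv x (W * H ^ n * E⁻¹) + ∑ i, h0 (resD hX (ζ i) (W * H ^ n * (H ^ c i)⁻¹)) 1) ∧
      ∀ i, ¬ Un (X.O (ζ i)) (E.eq (ζ i)) := by
  obtain ⟨r, ζ, c, ha, hb, hc⟩ := chain_twi hX hγ H hH hN hF hZ hS (van H x) E hE
  refine ⟨r, ζ, c, fun W => ?_, fun W => ?_, hc⟩
  · have h2 := ha W
    rwa [van_h hX hH, van_h hX hH] at h2
  · obtain ⟨n₀, h0⟩ := hb W
    refine ⟨n₀, fun n hn => ?_⟩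
    have h2 := h0 n hn
    rwa [van_h hX hH, van_h hX hH] at h2

end Pool.Agent.H39.TK
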