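import Pool.Agent.H39.TK.Base
import Pool.Agent.H24.TK.Fin

/-!
# Theorem K, chapter CHAIN: the ascending chain condition for homogeneous ideals

`noe_amp`: `Noe H` for every ample `H`, in characteristic `0`.

Proof.  `exists_fr`: `m ≥ 1` and a frame `t` of `H ^ m`.  For `i < m` let `s` be a nonzero section of
`(H ^ m) ^ e * (H ^ i)⁻¹` (`exists_sec`).  For a homogeneous ideal `J` let `qj J n = s * J (m * (n - e) + i)` for
`n ≥ e`, and `0` for `n < e`.  It consists of sections of `n (H ^ m)`, and it is stable under the multiplication by the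
frame.  The module `gM` (`H24/TK/Grd`) of `qj B` is finite (`gM_fin`), hence noetherian; so an ascending chain of ideals
`J` has stationary components in the degrees congruent to `i` modulo `m`.
-/

set_option autoImplicit false

namespace Pool.Agent.H39.TK

open Pool.Agent.H54.RV Pool.Agent.H83.TU Pool.Agent.H83.TK Pool.Agent.H24.TK Polynomial

variable {k K : Type} [Field k] [Field K] [Algebra k K] {X : Mod k K} {H : Cart X}

theorem aa_noeth {r : ℕ} (t : Fin r → K) : IsNoetherianRing (AA k t) := by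
  have h1 : (AA k t).FG := by
    refine ⟨(Set.finite_range fun j => (monomial 1 (t j) : K[X])).toFinset, ?_⟩
    rw [Set.Finite.coe_toFinset]
    rfl
  have h2 : Algebra.FiniteType k (AA k t) := (AA k t).fg_iff_finiteType.1 h1
  exact Algebra.FiniteType.isNoetherianRing k (AA k t)

theorem gm_noeth {r : ℕ} (t : Fin r → K) (Q : ℕ → Submodule k K) (hQ : ∀ n j, ∀ b ∈ Q n, t j * b ∈ Q (n + 1))
    (h2 : Module.Finite (AA k t) (gM hQ)) : IsNoetherian (AA k t) (gM hQ) := by
  have h1 := aa_noeth (k := k) t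
  exact isNoetherian_of_isNoetherianRing_of_finite (AA k t) (gM hQ)

/-- the components of an ideal in the degrees congruent to `i` modulo `m`, shifted by a section `s` -/
def qj (J : HI H) (m i e : ℕ) (s : K) (n : ℕ) : Submodule k K where
  carrier := {b | ∃ c, b = s * c ∧ ((e ≤ n ∧ c ∈ J.J (m * (n - e) + i)) ∨ c = 0)}
  zero_mem' := ⟨0, (mul_zero s).symm, Or.inr rfl⟩
  add_mem' := by
    rintro _ _ ⟨a, rfl, ha⟩ ⟨b, rfl, hb⟩
    refine ⟨a + b, (mul_add _ _ _).symm, ?_⟩
    rcases ha with ha | rfl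
    · rcases hb with hb | rfl
      · exact Or.inl ⟨ha.1, (J.J _).add_mem ha.2 hb.2⟩
      · rw [add_zero]
        exact Or.inl ha
    · rw [zero_add]
      exact hb
  smul_mem' := by
    rintro d _ ⟨a, rfl, ha⟩
    refine ⟨d • a, (mul_smul_comm _ _ _).symm, ?_⟩
    rcases ha with ha | rfl
    · exact Or.inl ⟨ha.1, (J.J _).smul_mem d ha.2⟩
    · exact Or.inr (smul_zero d)

theorem mem_qj (J : HI H) (m i e : ℕ) (s : K) (n : ℕ) (b : K) :
    b ∈ qj J m i e s n ↔ ∃ c, b = s * c ∧ ((e ≤ n ∧ c ∈ J.J (m * (n - e) + i)) ∨ c = 0) := Iff.rfl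

theorem qj_mul (J : HI H) (m i e : ℕ) (s : K) {r : ℕ} {t : Fin r → K} (ht : ∀ j, Sec H m (t j)) (n : ℕ) (j : Fin r)
    (b : K) (hb : b ∈ qj J m i e s n) : t j * b ∈ qj J m i e s (n + 1) := by
  obtain ⟨c, rfl, hc⟩ := hb
  refine ⟨t j * c, by ring, ?_⟩
  rcases hc with ⟨h1, h2⟩ | rfl
  · refine Or.inl ⟨by omega, ?_⟩
    have h3 := J.mul m _ (t j) c (ht j) h2
    have e1 : m + (m * (n - e) + i) = m * (n + 1 - e) + i := by
      have e2 : n + 1 - e = (n - e) + 1 := by omega
      rw [e2]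
      ring
    rwa [e1] at h3
  · exact Or.inr (mul_zero _)

theorem qj_le (J : HI H) (m i e : ℕ) (s : K) (hs : Sec ((H ^ m) ^ e * (H ^ i)⁻¹) 1 s) (n : ℕ) :
    qj J m i e s n ≤ secL (H ^ m) n := by
  rintro _ ⟨c, rfl, hc⟩
  rcases hc with ⟨h1, h2⟩ | rfl
  · intro x
    have h3 := (X.O x).mul_mem (hs x) (J.le _ h2 x)
    have hH := H.ne x
    have e1 : s * ((H ^ m) ^ e * (H ^ i)⁻¹).eq x ^ 1 * (c * H.eq x ^ (m * (n - e) + i)) =
        s * c * (H ^ m).eq x ^ n := by
      obtain ⟨d, rfl⟩ : ∃ d, n = d + e := ⟨n - e, by omega⟩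
      rw [Nat.add_sub_cancel, pow_one, mul_eq, pow_eq, pow_eq, inv_eq, pow_eq, pow_add, pow_add, ← pow_mul,
        ← pow_mul]
      field_simp
    rwa [e1] at h3
  · rw [mul_zero]
    exact (secL (H ^ m) n).zero_mem

theorem noe_amp [CharZero k] (hX : IsVar X) (hg : ∃ g, Gen X g) (hH : Ample H) : Noe H := by
  obtain ⟨m, hm, r, t, hF⟩ := exists_fr hX H hH
  have ht : ∀ j, Sec H m (t j) := fun j => (sec_pow_iff H m (t j)).1 (hF.sec j)
  rw [Noe, wellFoundedGT_iff_monotone_chain_condition]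
  intro a
  have key : ∀ i : ℕ, ∃ n₀, ∀ n ≥ n₀, ∀ q, (a n).J (m * q + i) ≤ (a n₀).J (m * q + i) := by
    intro i
    obtain ⟨e, s, hs0, hs⟩ := exists_sec hX hF (H ^ i)⁻¹
    have hfin := gM_fin hX hg hF (qj_mul (HI.top H) m i e s ht) (qj_le (HI.top H) m i e s hs)
    have hnoe : IsNoetherian (AA k t) (gM (qj_mul (HI.top H) m i e s ht)) := gm_noeth t _ _ hfin
    let N : ℕ →o Submodule (AA k t) (gM (qj_mul (HI.top H) m i e s ht)) :=
      { toFun := fun n => (gM (qj_mul (a n) m i e s ht)).comap (Submodule.subtype _)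
        monotone' := by
          intro n n' hn p hp j
          obtain ⟨c, h1, h2⟩ := hp j
          refine ⟨c, h1, ?_⟩
          rcases h2 with h2 | h2
          · exact Or.inl ⟨h2.1, a.monotone hn _ h2.2⟩
          · exact Or.inr h2 }
    obtain ⟨n₀, h0⟩ := monotone_stabilizes_iff_noetherian.2 hnoe N
    refine ⟨n₀, fun n hn q b hb => ?_⟩
    have hmem : ∀ J : HI H, b ∈ J.J (m * q + i) →
        (monomial (q + e) (s * b) : K[X]) ∈ gM (qj_mul J m i e s ht) := by
      intro J hJ j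
      rw [coeff_monomial]
      split_ifs with hj
      · subst hj
        refine ⟨b, rfl, Or.inl ⟨by omega, ?_⟩⟩
        rw [Nat.add_sub_cancel]
        exact hJ
      · exact (qj J m i e s j).zero_mem
    have h1 : (⟨monomial (q + e) (s * b), hmem (HI.top H) ((a n).le _ hb)⟩ :
        gM (qj_mul (HI.top H) m i e s ht)) ∈ N n := hmem (a n) hb
    rw [← h0 n hn] at h1
    obtain ⟨c, h2, h3⟩ := h1 (q + e)
    have h4 : s * b = s * c := by
      rw [← h2]
      exact (coeff_monomial_same _ _).symm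
    have h5 : b = c := mul_left_cancel₀ hs0 h4
    rcases h3 with ⟨-, h3⟩ | h3
    · rw [h5]
      rwa [Nat.add_sub_cancel] at h3
    · rw [h5, h3]
      exact ((a n₀).J _).zero_mem
  choose n₀ h0 using key
  refine ⟨(Finset.range m).sup n₀, fun n hn => ?_⟩
  apply le_antisymm
  · exact a.monotone hn
  · intro j b hb
    have hjm : j % m < m := Nat.mod_lt _ hm
    have hj : m * (j / m) + j % m = j := Nat.div_add_mod j m
    have h1 : n₀ (j % m) ≤ (Finset.range m).sup n₀ := Finset.le_sup (f := n₀) (Finset.mem_range.2 hjm)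
    have h2 := h0 (j % m) n (h1.trans hn) (j / m)
    rw [hj] at h2
    exact a.monotone h1 j (h2 hb)

end Pool.Agent.H39.TK
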