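import Pool.Agent.H39.TK.B2B

/-!
# THEOREM K, chapter (B2): a rational boundary class `N` which is not big, with `N.N ≢ 0` and `l(N) > 0`, is effective

* `tau_ppt`: if no multiple `r N`, `r > 0`, is the class of the prime surface `S`, then `N.N.S > 0`.
* `b2`: some effective divisor has the class `n N`, `n ≥ 1`.
-/

set_option autoImplicit false

open Filter

namespace Pool.Agent.H39.TK

open Pool.Agent.H57.KM Pool.Agent.H54.RV Pool.Agent.H83.TU Pool.Agent.H83.TK Pool.Agent.H20.TK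

variable {k K : Type} [Field k] [Field K] [Algebra k K] {X : Mod k K}
  {ν : Cart X →* Multiplicative (Fin 2 → ℤ)} {H N : Fin 2 → ℤ} {b : Fin 2 → Cart X}

/-- decomposition of a vector of the plane -/
theorem plane_dec {h p : V 2} (hd : p 0 * h 1 - p 1 * h 0 ≠ 0) (t : V 2) : ∃ α β : ℝ, t = α • h + β • p := by
  refine ⟨(p 0 * t 1 - p 1 * t 0) / (p 0 * h 1 - p 1 * h 0), (t 0 * h 1 - t 1 * h 0) / (p 0 * h 1 - p 1 * h 0), ?_⟩
  funext i
  fin_cases i
  · show t 0 = _ * h 0 + _ * p 0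
    field_simp
    ring
  · show t 1 = _ * h 1 + _ * p 1
    field_simp
    ring

/-- an effective class which is the opposite of an ample class does not exist, if the effective cone is not the plane -/
theorem eff_all (hX : IsVar X) (hν : Num ν) (ho : IsOpen (AmpV ν)) {t : V 2} (ht : t ∈ EffV ν)
    (ha : -t ∈ AmpV ν) (v : V 2) : v ∈ EffV ν := by
  have h1 : Tendsto (fun s : ℝ => -t + s • v) (nhds 0) (nhds (-t + (0 : ℝ) • v)) :=
    (continuous_const.add (continuous_id.smul continuous_const)).tendsto 0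
  rw [zero_smul, add_zero] at h1
  have h2 : ∀ᶠ s in nhds (0 : ℝ), -t + s • v ∈ AmpV ν := h1 (ho.mem_nhds ha)
  have h3 : ∀ᶠ s in nhdsWithin (0 : ℝ) (Set.Ioi 0), -t + s • v ∈ AmpV ν ∧ 0 < s :=
    (h2.filter_mono nhdsWithin_le_nhds).and (eventually_mem_nhdsWithin)
  obtain ⟨s, hs1, hs2⟩ := h3.exists
  have h4 : v = s⁻¹ • (t + (-t + s • v)) := by
    rw [add_neg_cancel_left, smul_smul, inv_mul_cancel₀ hs2.ne', one_smul]
  rw [h4]
  exact effV_smul (inv_pos.2 hs2).le (effV_add ht (ampV_effV hX hν hs1))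

theorem tau_ppt [CharZero k] (h : Hyp X) (hν : Num ν) (hb : ∀ i, cv ν (b i) = Pi.single i 1)
    {q : Fin 4 → ℝ} {l : V 2 →ₗ[ℝ] ℝ} {c : ℝ} (hcy : CY q l c ν) (hSP : SerP k) (ho : IsOpen (AmpV ν))
    (hH : Ample (bas b H)) {p : V 2} (hp : p ∈ closure (AmpV ν)) (hpe : p ∉ interior (EffV ν))
    (h0 : tau q p p p = 0) (h1 : 0 < tau q p p (toR H)) {ζ : X.P}
    (htr : Algebra.trdeg k (X.kap ζ) = 2) {S : Cart X} (hS : SPr X ζ S)
    (hno : ∀ r : ℝ, 0 < r → cv ν S ≠ r • p) : 0 < tau q p p (cv ν S) := by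
  have hHc : cv ν (bas b H) = toR H := cv_bas hb H
  have hHA : toR H ∈ AmpV ν := by
    rw [← hHc]
    exact ampV_cv ν _ hH
  have hd : p 0 * (toR H) 1 - p 1 * (toR H) 0 ≠ 0 := by
    intro hd
    obtain ⟨r, hr⟩ := det_zero (p := p) (u := toR H) (by
      rintro h2
      rw [h2] at h1
      have h3 : tau q p p (0 : V 2) = 0 := by
        unfold tau
        simp
      rw [h3] at h1
      exact lt_irrefl _ h1) hd
    have h3 : tau q p p p = r * tau q p p (toR H) := by
      conv_lhs => rw [hr]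
      rw [tau_smul3, ← hr]
    rw [h0] at h3
    have h4 : r = 0 := by
      rcases mul_eq_zero.1 h3.symm with h5 | h5
      · exact h5
      · exact absurd h5 h1.ne'
    rw [h4, zero_smul] at hr
    rw [hr] at h1
    have h5 : tau q (0 : V 2) 0 (toR H) = 0 := by
      unfold tau
      simp
    rw [h5] at h1
    exact lt_irrefl _ h1
  obtain ⟨α, β, ht⟩ := plane_dec hd (cv ν S)
  have htE : cv ν S ∈ EffV ν := effV_cv ν S hS.eff
  have hval : tau q p p (cv ν S) = α * tau q p p (toR H) := by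
    rw [ht, tau_add3, tau_smul3, tau_smul3, h0, mul_zero, add_zero]
  rw [hval]
  by_contra hcon
  have hα : α ≤ 0 := by
    by_contra h2
    push Not at h2
    exact hcon (mul_pos h2 h1)
  -- the surface
  obtain ⟨P, hP1, hP2⟩ := pdiv_of_trdeg h htr
  have hS' : SPr X P.η S := spr_congr h.var hP2 hP1 hS
  obtain ⟨-, hF, hFZ, -⟩ := hSP K X h.var h.gen _ hH
  have hsurf := H32.TK.surf_of h hcy hF hFZ (fun A hA => (hSP K X h.var h.gen A hA).2.2.2) P hS' (trdeg_pdiv h P)
  have hpos := hsurf.pos hH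
  have hnA := hsurf.nn_A (H32.TK.triT_sym q) hH hp
  rw [hHc, H32.TK.triT_apply] at hpos hnA
  rcases hα.lt_or_eq with h2 | h2
  · have h3 : cv ν S + (-α) • toR H = β • p := by
      rw [ht, neg_smul]
      abel
    rcases lt_or_ge 0 β with h4 | h4
    · apply hpe
      rw [mem_interior]
      refine ⟨{v | β • v - cv ν S ∈ AmpV ν}, ?_, ?_, ?_⟩
      · intro v hv
        have h5 : v = β⁻¹ • (cv ν S + (β • v - cv ν S)) := by
          rw [add_sub_cancel, smul_smul, inv_mul_cancel₀ h4.ne', one_smul]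
        rw [h5]
        exact effV_smul (inv_pos.2 h4).le (effV_add htE (ampV_effV h.var hν hv))
      · have hc : Continuous (fun v : V 2 => β • v - cv ν S) := by fun_prop
        exact ho.preimage hc
      · show β • p - cv ν S ∈ AmpV ν
        rw [← h3, add_sub_cancel_left]
        exact ampV_smul (by linarith) hHA
    · have h5 : -cv ν S ∈ AmpV ν := by
        have h6 := H32.TK.comb_mem ho hp hHA (a := -β) (b := -α) (by linarith) (by linarith)
        have h7 : (-β) • p + (-α) • toR H = -cv ν S := by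
          rw [ht, neg_smul, neg_smul]
          abel
        rwa [h7] at h6
      apply hpe
      have h8 : EffV ν = Set.univ := Set.eq_univ_of_forall (eff_all h.var hν ho htE h5)
      rw [h8, interior_univ]
      trivial
  · rw [h2, zero_smul, zero_add] at ht
    rcases lt_trichotomy β 0 with h3 | h3 | h3
    · rw [ht, tau_smul3, tau_comm' q p (toR H) p] at hnA
      have := mul_pos_of_neg_of_neg h3 (neg_neg_of_pos h1)
      linarith
    · rw [ht, h3, zero_smul] at hpos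
      have h5 : tau q (toR H) (toR H) (0 : V 2) = 0 := by
        unfold tau
        simp
      rw [h5] at hpos
      exact lt_irrefl _ hpos
    · exact hno β h3 ht

/-- a linear function with positive slope -/
theorem lin_inf {A : ℝ} (hA : 0 < A) (B M : ℝ) : ∃ n₀ : ℤ, ∀ n : ℤ, n₀ ≤ n → M < n * A + B := by
  obtain ⟨m, hm⟩ := exists_nat_gt ((M - B) / A)
  rw [div_lt_iff₀ hA] at hm
  refine ⟨m, fun n hn => ?_⟩
  have h1 : (m : ℝ) ≤ n := by exact_mod_cast hn
  have h2 : (m : ℝ) * A ≤ n * A := mul_le_mul_of_nonneg_right h1 hA.le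
  linarith

theorem b2 [CharZero k] [IsAlgClosed k] (h : Hyp X) (hν : Num ν) (hb : ∀ i, cv ν (b i) = Pi.single i 1)
    {q : Fin 4 → ℝ} {l : V 2 →ₗ[ℝ] ℝ} {c : ℝ} (hcy : CY q l c ν) (hSP : SerP k) (ho : IsOpen (AmpV ν))
    (hH : Ample (bas b H)) (hB : Bpf (bas b H)) (hp : toR N ∈ closure (AmpV ν))
    (hpe : toR N ∉ interior (EffV ν)) (h0' : tau q (toR N) (toR N) (toR N) = 0)
    (h1 : 0 < tau q (toR N) (toR N) (toR H)) (hl : 0 < l (toR N)) :
    ∃ (n : ℕ) (D : Cart X), 1 ≤ n ∧ Effective D ∧ cv ν D = (n : ℝ) • toR N := by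
  have hHA : toR H ∈ AmpV ν := by
    rw [← cv_bas hb H]
    exact ampV_cv ν _ hH
  by_cases hex : ∃ (ζ : X.P) (S : Cart X) (r : ℝ), Algebra.trdeg k (X.kap ζ) = 2 ∧ SPr X ζ S ∧ 0 < r ∧
      cv ν S = r • toR N
  · obtain ⟨ζ, S, r, -, hS, hr, hSr⟩ := hex
    have hN0 : ∃ i, N i ≠ 0 := by
      by_contra h2
      push Not at h2
      have h3 : toR N = 0 := by
        funext i
        show (N i : ℝ) = 0
        rw [h2 i, Int.cast_zero]
      rw [h3, map_zero] at hl
      exact lt_irrefl _ hl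
    obtain ⟨i, hi⟩ := hN0
    obtain ⟨z, hz⟩ : ∃ z, z = cz ν S i := ⟨_, rfl⟩
    have h2 : (z : ℝ) = r * N i := by
      have h3 := congrFun hSr i
      rw [hz]
      exact h3
    have hz0 : z ≠ 0 := by
      rintro h3
      rw [h3, Int.cast_zero] at h2
      rcases mul_eq_zero.1 h2.symm with h4 | h4
      · exact hr.ne' h4
      · exact hi (by exact_mod_cast h4)
    refine ⟨z.natAbs, S ^ (N i).natAbs, Nat.one_le_iff_ne_zero.2 (Int.natAbs_ne_zero.2 hz0), ?_, ?_⟩
    · intro x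
      rw [pow_eq]
      exact (X.O x).pow_mem (hS.eff x) _
    · rw [cv_pow, hSr, smul_smul]
      congr 1
      have h3 : (z.natAbs : ℝ) = |(z : ℝ)| := by
        rw [← Int.cast_abs, Int.abs_eq_natAbs, Int.cast_natCast]
      have h4 : ((N i).natAbs : ℝ) = |(N i : ℝ)| := by
        rw [← Int.cast_abs, Int.abs_eq_natAbs, Int.cast_natCast]
      rw [h3, h4, h2, abs_mul, abs_of_pos hr, mul_comm]
  push Not at hex
  have hNef : ∀ n : ℕ, Ample (bas b (H + n • N)) := by
    intro n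
    rw [amp_bas h.var hν hb, toR_add, toR_nsmul, add_comm]
    have h2 := H32.TK.comb_mem ho hp hHA (a := n) (b := 1) (Nat.cast_nonneg n) one_pos
    rwa [one_smul] at h2
  obtain ⟨-, hF, -, -⟩ := hSP K X h.var h.gen _ hH
  have hHpos : 0 < h0 (MonoidHom.id (Cart X) (bas b H)) 1 := by
    obtain ⟨x⟩ := h.var.ne
    obtain ⟨s, hs1, hs2⟩ := hB x
    have := hF (bas b H)
    refine H32.TK.pos_of_sec _ this (s := s) hs1 ?_
    rintro rfl
    exact hs2.1 (zero_mul _)
  obtain ⟨r, ζ', c', h2, h3⟩ := step_of (H := H) h.var h.gen hSP (MonoidHom.id (Cart X)) hH H hHpos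
  have h4 : ∀ i, ∃ Q, SB H N (fun m => (h0 (resD h.var (ζ' i) (bas b m)) 1 : ℝ)) Q := by
    intro i
    have h5 := h2 i
    rw [h.tr] at h5
    obtain ⟨m, hm⟩ := Cardinal.lt_aleph0.1 (h5.trans (by exact_mod_cast Cardinal.natCast_lt_aleph0 (n := 3)))
    have hm3 : m < 3 := by
      rw [hm] at h5
      exact_mod_cast h5
    rcases Nat.lt_succ_iff_lt_or_eq.1 hm3 with h6 | h6
    · refine sb_piece (isVar_sub _ _) ⟨_, gen_sub _ _⟩ ?_ (resD h.var (ζ' i)) (fun A hA => res_ample _ _ _ hA) hNef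
      rw [hm]
      exact_mod_cast h6
    · rw [h6] at hm
      have hm2 : Algebra.trdeg k (X.kap (ζ' i)) = 2 := by
        rw [hm]
        norm_num
      obtain ⟨S, hS⟩ := spr_of_trdeg h hm2
      exact ⟨_, sb_surf h hν hb hcy hSP hm2 hS hH hB hNef
        (tau_ppt h hν hb hcy hSP ho hH hp hpe h0' h1 hm2 hS fun r hr => hex _ _ r hm2 hS hr)⟩
  choose Q hQ using h4
  have h5 := sb_sum Finset.univ _ _ fun i _ => sb_shift (hQ i) (c' i)
  obtain ⟨M, n₀, h6⟩ := low_b (ev_chi hcy hb hH) (pl_chi q l c) h5 h3 0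
  obtain ⟨n₁, h7⟩ := lin_inf hl c M
  obtain ⟨n, hn⟩ : ∃ n : ℕ, 1 ≤ n ∧ n₀ ≤ n ∧ n₁ ≤ n := ⟨(max 1 (max n₀ n₁)).toNat, by omega, by omega, by omega⟩
  have h8 := h6 0 n le_rfl hn.2.1
  have h9 := h7 n hn.2.2
  have e1 : (0 : ℤ) • H + (n : ℤ) • N = n • N := by
    rw [zero_smul, zero_add, natCast_zsmul]
  rw [e1] at h8
  have e2 : chi q l c (toR (n • N)) = n * l (toR N) + c := by
    rw [toR_nsmul]
    unfold chi
    rw [tau_smul, tau_smul2, tau_smul3, h0', map_smul, smul_eq_mul]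
    ring
  rw [e2] at h8
  have h10 : 0 < h0 (bas b (n • N)) 1 := by
    have h11 : (0 : ℝ) < (h0 (bas b (n • N)) 1 : ℝ) := by
      have h12 : M < (n : ℝ) * l (toR N) + c := by
        have h13 := h9
        push_cast at h13
        exact h13
      have h14 : (n : ℝ) * l (toR N) + c - M ≤ (h0 (bas b (n • N)) 1 : ℝ) := h8
      linarith
    exact_mod_cast h11
  obtain ⟨s, hs, hE⟩ := eff_of_pos _ h10
  refine ⟨n, _, hn.1, hE, ?_⟩
  rw [cv_mul, cv_prin hν, zero_add, cv_bas hb, toR_nsmul]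

end Pool.Agent.H39.TK
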