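import Pool.Agent.H39.TK.LF

/-!
# Theorem K, chapter CHAIN: the localization of a homogeneous ideal at a point

* `at_smul`, `at_le`: `J_x` is an ideal of `O x`.
* `at_of_mem`: `b * H.eq x ^ n ∈ J_x` for `b ∈ J n`.
* `at_spec`: `J_x ≤ J_ζ` if `x` is in the closure of `ζ`; `at_mono`; `top_at`: `B_x = O x`.
* `at_un`: `a * f ∈ J_x ↔ f ∈ J_x` for a unit `a` of `O x`.
* `van_at`: the localization of the ideal `van H ζ` at `x` is the kernel of `O x → κ(ζ)` if `x` is in the closure of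
  `ζ`, and `O x` if not.
* `van_sat`: the ideal `van H ζ` contains exactly the functions `b` of degree `n` with `b * H.eq x ^ n ∈ (van H ζ)_x`
  for all `x`.
-/

set_option autoImplicit false

namespace Pool.Agent.H39.TK

open Pool.Agent.H54.RV Pool.Agent.H83.TU Pool.Agent.H83.TK

variable {k K : Type} [Field k] [Field K] [Algebra k K] {X : Mod k K} {H : Cart X}

theorem at_smul (hX : IsVar X) (hH : Ample H) (J : HI H) (x : X.P) (a f : K) (ha : a ∈ X.O x)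
    (hf : f ∈ J.at_ x) : a * f ∈ J.at_ x := by
  obtain ⟨n, s, hs, hx, h⟩ := hf
  obtain ⟨m₀, h0⟩ := uf_pt hX H hH x a ha
  obtain ⟨t, ht1, ht2, ht3⟩ := h0 m₀ le_rfl
  refine ⟨m₀ + n, t * s, smul_sec ht1 hs, smul_nz ht3 hx, ?_⟩
  have e1 : t * s * (a * f) = t * a * (s * f) := by ring
  rw [e1]
  exact J.mul m₀ n _ _ ht2 h

theorem at_le (J : HI H) (x : X.P) (f : K) (hf : f ∈ J.at_ x) : f ∈ X.O x := by
  obtain ⟨n, s, hs, hx, h⟩ := hf
  have h1 := J.le n h x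
  have h2 : Un (X.O x) (s * H.eq x ^ n) := hx
  have e1 : s * f * H.eq x ^ n = f * (s * H.eq x ^ n) := by ring
  rw [e1, mem_mul_un h2] at h1
  exact h1

theorem at_un (hX : IsVar X) (hH : Ample H) (J : HI H) (x : X.P) (a f : K) (ha : Un (X.O x) a) :
    a * f ∈ J.at_ x ↔ f ∈ J.at_ x := by
  constructor
  · intro h
    have h1 := at_smul hX hH J x a⁻¹ _ ha.2.2 h
    rwa [inv_mul_cancel_left₀ ha.1] at h1
  · exact at_smul hX hH J x a f ha.2.1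

theorem at_of_mem (hX : IsVar X) (hH : Ample H) (J : HI H) (x : X.P) (n : ℕ) (b : K) (hb : b ∈ J.J n) :
    b * H.eq x ^ n ∈ J.at_ x := by
  obtain ⟨m₀, h0⟩ := lf hX H (H ^ n)⁻¹ hH x (H.eq x ^ n) (by
    rw [inv_eq, pow_eq, mul_inv_cancel₀ (pow_ne_zero n (H.ne x))]
    exact (X.O x).one_mem)
  obtain ⟨s, hs1, hs2, hs3⟩ := h0 (m₀ + n) (by omega)
  have h1 : Sec H m₀ (s * H.eq x ^ n) := by
    intro y
    have h2 := hs3 y
    rw [pow_one, mul_eq, pow_eq, inv_eq, pow_eq] at h2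
    have e1 : s * H.eq x ^ n * (H.eq y ^ (m₀ + n) * (H.eq y ^ n)⁻¹) = s * H.eq x ^ n * H.eq y ^ m₀ := by
      have h3 := H.ne y
      rw [pow_add]
      field_simp
    rwa [e1] at h2
  refine ⟨m₀ + n, s, hs1, hs2, ?_⟩
  have e2 : s * (b * H.eq x ^ n) = s * H.eq x ^ n * b := by ring
  rw [e2]
  exact J.mul m₀ n _ _ h1 hb

theorem at_spec (hX : IsVar X) (J : HI H) {ζ x : X.P} (h : ζ ⤳ x) : J.at_ x ≤ J.at_ ζ := by
  rintro f ⟨n, s, hs, hx, hf⟩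
  exact ⟨n, s, hs, spec_nz hX h hx, hf⟩

theorem at_mono {J J' : HI H} (h : J ≤ J') (x : X.P) : J.at_ x ≤ J'.at_ x := by
  rintro f ⟨n, s, hs, hx, hf⟩
  exact ⟨n, s, hs, hx, h n hf⟩

theorem top_at (hX : IsVar X) (hH : Ample H) (x : X.P) (f : K) : f ∈ (HI.top H).at_ x ↔ f ∈ X.O x := by
  refine ⟨at_le _ x f, fun hf => ?_⟩
  obtain ⟨m₀, h0⟩ := uf_pt hX H hH x f hf
  obtain ⟨t, ht1, ht2, ht3⟩ := h0 m₀ le_rfl
  exact ⟨m₀, t, ht1, ht3, ht2⟩

theorem van_at (hX : IsVar X) (hH : Ample H) (ζ x : X.P) (a : K) :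
    a ∈ (van H ζ).at_ x ↔ a ∈ X.O x ∧ (ζ ⤳ x → ¬ Un (X.O ζ) a) := by
  constructor
  · intro h
    refine ⟨at_le _ x a h, fun hz hu => ?_⟩
    obtain ⟨n, s, hs, hx, hsec, hn⟩ := h
    have h1 : Un (X.O ζ) (s * H.eq ζ ^ n) := spec_nz hX hz hx
    apply hn
    have e1 : s * a * H.eq ζ ^ n = a * (s * H.eq ζ ^ n) := by ring
    rw [e1]
    exact un_mul hu h1
  · rintro ⟨ha, h⟩
    by_cases hz : ζ ⤳ x
    · obtain ⟨m₀, h0⟩ := uf_pt hX H hH x a ha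
      obtain ⟨t, ht1, ht2, ht3⟩ := h0 m₀ le_rfl
      refine ⟨m₀, t, ht1, ht3, ht2, fun hu => h hz ?_⟩
      have h1 : Un (X.O ζ) (t * H.eq ζ ^ m₀) := spec_nz hX hz ht3
      have e1 : t * a * H.eq ζ ^ m₀ = a * (t * H.eq ζ ^ m₀) := by ring
      rw [e1, un_mul_un h1] at hu
      exact hu
    · obtain ⟨n, s, hs, hx, hn⟩ := sep hX H hH ζ x hz
      have h1 : (1 : K) ∈ (van H ζ).at_ x := ⟨n, s, hs, hx, by
        rw [mul_one]
        exact ⟨hs, hn⟩⟩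
      have h2 := at_smul hX hH (van H ζ) x a 1 ha h1
      rwa [mul_one] at h2

theorem van_sat (hX : IsVar X) (hH : Ample H) (ζ : X.P) (n : ℕ) (b : K) :
    b ∈ (van H ζ).J n ↔ ∀ x, b * H.eq x ^ n ∈ (van H ζ).at_ x := by
  constructor
  · exact fun h x => at_of_mem hX hH _ x n b h
  · intro h
    refine ⟨fun x => at_le _ x _ (h x), ?_⟩
    have h1 := (van_at hX hH ζ ζ _).1 (h ζ)
    exact h1.2 specializes_rfl

end Pool.Agent.H39.TK
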