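import Pool.Agent.H20.TK.NLF
import Pool.Agent.H20.TK.Low

/-!
# THEOREM K, chapter (B2): the calculus of bounded errors along a rational boundary class `N`

`L` a lattice, `H N : L`; functions `g : L → ℝ` (numbers of sections) are compared with polynomial functions `Q`
(`PL`, `Ev` of `H20/TK/Def.lean`) at the points `j H + n N`.

* `SB H N g Q`: `g ≤ Q` at `j H + n N` for `j ≥ j₀`, `n ≥ 0`; and `g ≤ Q + K` for `j ≥ c`, `n ≥ n₀` (`K`, `n₀` depend on
  `c`).
* `low_b`: the lower bound `Q - K ≤ f` for `j ≥ c`, `n ≥ n₀`, if `f m ≤ f (m - H) + g m`, `g` with `SB`.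
* `upp_b`: `SB H N f Q` if `f m ≤ f (m - G) + g m` with `G = - H + m₀ N`, `m₀ ≥ 1`, `g` with `SB`.
* `TB`, `tb_sb`: a function for which the steps exist satisfies `SB`, if `Q (- H + n N) → ∞`.
-/

set_option autoImplicit false

namespace Pool.Agent.H39.TK

open Pool.Agent.H20.TK

variable {L : Type} [AddCommGroup L] {H N : L}

/-- upper bounds with bounded errors -/
structure SB (H N : L) (g Q : L → ℝ) : Prop where
  ev : Ev H g Q
  pol : PL H Q
  t1 : ∃ j₀ : ℤ, ∀ j n : ℤ, j₀ ≤ j → 0 ≤ n → g (j • H + n • N) ≤ Q (j • H + n • N)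
  t2 : ∀ c : ℤ, ∃ (K : ℝ) (n₀ : ℤ), ∀ j n : ℤ, c ≤ j → n₀ ≤ n → g (j • H + n • N) ≤ Q (j • H + n • N) + K

theorem sb_add {g g' Q Q' : L → ℝ} (h : SB H N g Q) (h' : SB H N g' Q') :
    SB H N (fun m => g m + g' m) (fun m => Q m + Q' m) where
  ev := ev_add h.ev h'.ev
  pol := pl_add h.pol h'.pol
  t1 := by
    obtain ⟨j₁, h1⟩ := h.t1
    obtain ⟨j₂, h2⟩ := h'.t1
    refine ⟨max j₁ j₂, fun j n hj hn => ?_⟩
    exact add_le_add (h1 j n (le_trans (le_max_left _ _) hj) hn) (h2 j n (le_trans (le_max_right _ _) hj) hn)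
  t2 := by
    intro c
    obtain ⟨K₁, n₁, h1⟩ := h.t2 c
    obtain ⟨K₂, n₂, h2⟩ := h'.t2 c
    refine ⟨K₁ + K₂, max n₁ n₂, fun j n hj hn => ?_⟩
    have h3 := h1 j n hj (le_trans (le_max_left _ _) hn)
    have h4 := h2 j n hj (le_trans (le_max_right _ _) hn)
    linarith

theorem sb_zero : SB H N (fun _ => 0) (fun _ => 0) where
  ev := fun _ => ⟨0, fun _ _ => rfl⟩
  pol := fun _ => ⟨0, fun n => by rw [Polynomial.eval_zero]⟩
  t1 := ⟨0, fun _ _ _ _ => le_rfl⟩
  t2 := fun _ => ⟨0, 0, fun _ _ _ _ => by rw [add_zero]⟩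

theorem sb_shift {g Q : L → ℝ} (h : SB H N g Q) (c : ℕ) :
    SB H N (fun m => g (m + -(c • H))) (fun m => Q (m + -(c • H))) where
  ev := ev_shift h.ev _
  pol := pl_shift h.pol _
  t1 := by
    obtain ⟨j₀, h1⟩ := h.t1
    refine ⟨j₀ + c, fun j n hj hn => ?_⟩
    have e1 : j • H + n • N + -(c • H) = (j - c) • H + n • N := by
      rw [sub_smul, natCast_zsmul]
      abel
    rw [e1]
    exact h1 (j - c) n (by omega) hn
  t2 := by
    intro c₀
    obtain ⟨K, n₀, h1⟩ := h.t2 (c₀ - c)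
    refine ⟨K, n₀, fun j n hj hn => ?_⟩
    have e1 : j • H + n • N + -(c • H) = (j - c) • H + n • N := by
      rw [sub_smul, natCast_zsmul]
      abel
    rw [e1]
    exact h1 (j - c) n (by omega) hn

theorem sb_sum {ι : Type} (s : Finset ι) (g Q : ι → L → ℝ) (h : ∀ i ∈ s, SB H N (g i) (Q i)) :
    SB H N (fun m => ∑ i ∈ s, g i m) (fun m => ∑ i ∈ s, Q i m) := by
  classical
  induction s using Finset.induction_on with
  | empty =>
    simp only [Finset.sum_empty]
    exact sb_zero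
  | insert a s ha ih =>
    simp only [Finset.sum_insert ha]
    exact sb_add (h a (Finset.mem_insert_self a s)) (ih fun i hi => h i (Finset.mem_insert_of_mem hi))

theorem low_b {f Q g Q' : L → ℝ} (hf : Ev H f Q) (hQ : PL H Q) (hg : SB H N g Q') (hs : Stp H H f g) (c : ℤ) :
    ∃ (K : ℝ) (n₀ : ℤ), ∀ j n : ℤ, c ≤ j → n₀ ≤ n → Q (j • H + n • N) - K ≤ f (j • H + n • N) := by
  have hid := stp_id hf hQ hg.ev hg.pol hs
  have step : ∀ j n : ℤ, (f ((j + 1) • H + n • N) - Q ((j + 1) • H + n • N)) -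
      (g ((j + 1) • H + n • N) - Q' ((j + 1) • H + n • N)) ≤ f (j • H + n • N) - Q (j • H + n • N) := by
    intro j n
    have h1 := hs.1 ((j + 1) • H + n • N)
    have h2 := hid ((j + 1) • H + n • N)
    have e1 : (j + 1) • H + n • N - H = j • H + n • N := by
      rw [add_smul, one_smul]
      abel
    rw [e1] at h1 h2
    linarith
  obtain ⟨j₀, h1⟩ := hg.t1
  have ph1 : ∀ j n : ℤ, j₀ ≤ j → 0 ≤ n → 0 ≤ f (j • H + n • N) - Q (j • H + n • N) := by
    intro j n hj hn
    have h2 : ∀ d : ℕ, f ((j + d) • H + n • N) - Q ((j + d) • H + n • N) ≤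
        f (j • H + n • N) - Q (j • H + n • N) := by
      intro d
      induction d with
      | zero => simp
      | succ d ih =>
        have h3 := step (j + d) n
        have h4 := h1 (j + d + 1) n (by omega) hn
        have e1 : (j + ((d + 1 : ℕ) : ℤ)) = j + d + 1 := by push_cast; ring
        rw [e1]
        linarith
    obtain ⟨n₁, h3⟩ := hf (j • H + n • N)
    have h4 := h3 n₁ le_rfl
    have h5 := h2 n₁
    have e1 : (j + (n₁ : ℤ)) • H + n • N = j • H + n • N + n₁ • H := by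
      rw [add_smul, natCast_zsmul]
      abel
    rw [e1, h4] at h5
    linarith
  obtain ⟨K, n₀, h2⟩ := hg.t2 c
  have ph2 : ∀ d : ℕ, ∀ j n : ℤ, c ≤ j → j₀ ≤ j + d → 0 ≤ n → n₀ ≤ n →
      -(d * max K 0) ≤ f (j • H + n • N) - Q (j • H + n • N) := by
    intro d
    induction d with
    | zero =>
      intro j n _ hj hn _
      have := ph1 j n (by simpa using hj) hn
      simpa using this
    | succ d ih =>
      intro j n hc hj hn hn0
      have h3 := ih (j + 1) n (by omega) (by push_cast at hj ⊢; omega) hn hn0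
      have h4 := step j n
      have h5 := h2 (j + 1) n (by omega) hn0
      have h6 := le_max_left K 0
      push_cast
      linarith
  refine ⟨(j₀ - c).toNat * max K 0, max 0 n₀, fun j n hj hn => ?_⟩
  have h3 := ph2 (j₀ - c).toNat j n hj (by omega) (le_trans (le_max_left _ _) hn) (le_trans (le_max_right _ _) hn)
  linarith

theorem upp_b {f Q g Q' : L → ℝ} (hf : Ev H f Q) (hQ : PL H Q) (hg : SB H N g Q') (m₀ : ℤ) (hm : 1 ≤ m₀)
    (hs : Stp H (-H + m₀ • N) f g) : SB H N f Q := by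
  have hid := stp_id hf hQ hg.ev hg.pol hs
  have step : ∀ j n : ℤ, f (j • H + n • N) - Q (j • H + n • N) ≤
      (f ((j + 1) • H + (n - m₀) • N) - Q ((j + 1) • H + (n - m₀) • N)) +
        (g (j • H + n • N) - Q' (j • H + n • N)) := by
    intro j n
    have h1 := hs.1 (j • H + n • N)
    have h2 := hid (j • H + n • N)
    have e1 : j • H + n • N - (-H + m₀ • N) = (j + 1) • H + (n - m₀) • N := by
      rw [add_smul, one_smul, sub_smul]
      abel
    rw [e1] at h1 h2
    linarith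
  -- the points with `0 ≤ n < m₀`
  have hfin : ∃ a₀ : ℤ, ∀ j n : ℤ, a₀ ≤ j → 0 ≤ n → n < m₀ → f (j • H + n • N) - Q (j • H + n • N) ≤ 0 := by
    have h1 : ∀ n : ℕ, ∃ a : ℕ, ∀ i : ℕ, a ≤ i → f ((n : ℤ) • N + i • H) = Q ((n : ℤ) • N + i • H) :=
      fun n => hf _
    choose a ha using h1
    refine ⟨((∑ n ∈ Finset.range m₀.toNat, a n : ℕ) : ℤ), fun j n hj hn hnm => ?_⟩
    have h2 : a n.toNat ≤ ∑ n ∈ Finset.range m₀.toNat, a n :=
      Finset.single_le_sum (f := a) (fun _ _ => Nat.zero_le _) (Finset.mem_range.2 (by omega))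
    have h3 : (0 : ℤ) ≤ ((∑ n ∈ Finset.range m₀.toNat, a n : ℕ) : ℤ) := Int.natCast_nonneg _
    have h4 := ha n.toNat j.toNat (by omega)
    have e1 : ((n.toNat : ℕ) : ℤ) = n := by omega
    have e2 : j • H + n • N = (n.toNat : ℤ) • N + j.toNat • H := by
      have e3 : ((j.toNat : ℕ) : ℤ) = j := by omega
      rw [e1, ← natCast_zsmul, e3, add_comm]
    rw [e2, h4, sub_self]
  obtain ⟨a₀, ha₀⟩ := hfin
  obtain ⟨j₁, h1⟩ := hg.t1
  have ph1 : ∀ d : ℕ, ∀ j n : ℤ, max j₁ a₀ ≤ j → 0 ≤ n → n ≤ d → f (j • H + n • N) - Q (j • H + n • N) ≤ 0 := by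
    intro d
    induction d with
    | zero =>
      intro j n hj hn hnd
      exact ha₀ j n (le_trans (le_max_right _ _) hj) hn (by push_cast at hnd; omega)
    | succ d ih =>
      intro j n hj hn hnd
      by_cases hnm : n < m₀
      · exact ha₀ j n (le_trans (le_max_right _ _) hj) hn hnm
      · have h3 := ih (j + 1) (n - m₀) (by omega) (by omega) (by push_cast at hnd; omega)
        have h4 := step j n
        have h5 := h1 j n (le_trans (le_max_left _ _) hj) hn
        linarith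
  refine ⟨hf, hQ, ⟨max j₁ a₀, fun j n hj hn => ?_⟩, fun c => ?_⟩
  · have h2 := ph1 n.toNat j n hj hn (by omega)
    linarith
  obtain ⟨K, n₀, h2⟩ := hg.t2 c
  have ph2 : ∀ d : ℕ, ∀ j n : ℤ, c ≤ j → max j₁ a₀ ≤ j + d → max n₀ 0 + d * m₀ ≤ n →
      f (j • H + n • N) - Q (j • H + n • N) ≤ d * max K 0 := by
    intro d
    induction d with
    | zero =>
      intro j n _ hj hn
      have h3 := ph1 n.toNat j n (by simpa using hj) (by push_cast at hn; omega) (by push_cast at hn; omega)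
      simpa using h3
    | succ d ih =>
      intro j n hc hj hn
      have hd : (0 : ℤ) ≤ d * m₀ := by positivity
      have e1 : ((d + 1 : ℕ) : ℤ) * m₀ = d * m₀ + m₀ := by push_cast; ring
      rw [e1] at hn
      have h3 := ih (j + 1) (n - m₀) (by omega) (by push_cast at hj ⊢; omega) (by omega)
      have h4 := step j n
      have h5 := h2 j n hc (by omega)
      have h6 := le_max_left K 0
      push_cast
      linarith
  refine ⟨(max j₁ a₀ - c).toNat * max K 0, max n₀ 0 + (max j₁ a₀ - c).toNat * m₀, fun j n hj hn => ?_⟩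
  have h3 := ph2 (max j₁ a₀ - c).toNat j n hj (by omega) hn
  linarith

/-- the functions for which the steps exist -/
structure TB (H N : L) (f Q : L → ℝ) : Prop where
  ev : Ev H f Q
  pol : PL H Q
  hH : 0 < f H
  st : ∀ G, 0 < f G → ∃ g Q', SB H N g Q' ∧ Stp H G f g

theorem tb_sb {f Q : L → ℝ} (h : TB H N f Q) (hq : ∀ K : ℝ, ∃ n₀ : ℤ, ∀ n : ℤ, n₀ ≤ n → K < Q (-H + n • N)) :
    SB H N f Q := by
  obtain ⟨g, Q', hg, hs⟩ := h.st H h.hH
  obtain ⟨K, n₀, h1⟩ := low_b h.ev h.pol hg hs (-1)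
  obtain ⟨n₁, h2⟩ := hq K
  have h3 := h1 (-1) (max 1 (max n₀ n₁)) le_rfl (by omega)
  have h4 := h2 (max 1 (max n₀ n₁)) (by omega)
  rw [neg_one_smul] at h3
  have h5 : 0 < f (-H + max 1 (max n₀ n₁) • N) := by linarith
  obtain ⟨g', Q'', hg', hs'⟩ := h.st _ h5
  exact upp_b h.ev h.pol hg' _ (le_max_left _ _) hs'

end Pool.Agent.H39.TK
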