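import Pool.Agent.H39.TK.B2A
import Pool.Agent.H20.TK.Geo

/-!
# THEOREM K, chapter (B2): curves, points and surfaces

`H`, `N` lattice points, `bas b (H + n N)` ample for all `n ≥ 0` (so `N` is nef).
* `sb_curve`, `sb_piece`: the numbers of sections on the closed subvarieties of dimension `≤ 1` satisfy `SB`.
* `tb_surf`: the numbers of sections on a prime surface satisfy `TB`.
* `chT_inf`: the polynomial of a surface with the class `t`, `0 < tau p p t`, tends to infinity at `- H + n N`.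
* `sb_surf`: so they satisfy `SB`.
-/

set_option autoImplicit false

open Filter

namespace Pool.Agent.H39.TK

open Pool.Agent.H57.KM Pool.Agent.H54.RV Pool.Agent.H83.TU Pool.Agent.H83.TK Pool.Agent.H20.TK

section const

variable {L : Type} [AddCommGroup L] {H N : L}

theorem sb_const (r : ℝ) : SB H N (fun _ => r) (fun _ => r) where
  ev := fun _ => ⟨0, fun _ _ => rfl⟩
  pol := fun _ => ⟨Polynomial.C r, fun n => by rw [Polynomial.eval_C]⟩
  t1 := ⟨0, fun _ _ _ _ => le_rfl⟩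
  t2 := fun _ => ⟨0, 0, fun _ _ _ _ => by rw [add_zero]⟩

end const

variable {k K : Type} [Field k] [Field K] [Algebra k K] {X : Mod k K}
  {ν : Cart X →* Multiplicative (Fin 2 → ℤ)} {H N : Fin 2 → ℤ} {b : Fin 2 → Cart X}

/-- the numbers of sections on a curve -/
theorem sb_curve [CharZero k] {κ : Type} [Field κ] [Algebra k κ] {C : Mod k κ} (hC : H41.TK.Crv C)
    (φ : Cart X →* Cart C) (hφ : ∀ A : Cart X, Ample A → Ample (φ A))
    (hN : ∀ n : ℕ, Ample (bas b (H + n • N))) :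
    ∃ Q, SB H N (fun m => (h0 (φ (bas b m)) 1 : ℝ)) Q := by
  let δ : (Fin 2 → ℤ) →+ ℤ :=
    { toFun := fun m => H41.TK.dg (φ (bas b m))
      map_zero' := by
        rw [bas_zero, map_one, H41.TK.dg_one]
      map_add' := fun m n => by
        rw [bas_add, map_mul, H41.TK.dg_mul hC] }
  have hδ : ∀ m, δ m = H41.TK.dg (φ (bas b m)) := fun _ => rfl
  have hHN : ∀ n : ℕ, 0 < δ H + n * δ N := by
    intro n
    have h1 := H41.TK.dg_ample hC _ (hφ _ (hN n))
    rw [← hδ, map_add, map_nsmul, nsmul_eq_mul] at h1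
    exact h1
  have hH : 0 < δ H := by
    have := hHN 0
    simpa using this
  have hN0 : 0 ≤ δ N := by
    by_contra h1
    push Not at h1
    have h2 := hHN (δ H).toNat
    have h3 : ((δ H).toNat : ℤ) = δ H := Int.toNat_of_nonneg hH.le
    rw [h3] at h2
    nlinarith
  have hpt : ∀ j n : ℤ, δ (j • H + n • N) = j * δ H + n * δ N := by
    intro j n
    rw [map_add, map_zsmul, map_zsmul, smul_eq_mul, smul_eq_mul]
  have heq : ∀ m, - 2 * H41.TK.chi C < δ m → (h0 (φ (bas b m)) 1 : ℝ) = (δ m : ℝ) + (H41.TK.chi C : ℤ) := by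
    intro m hm
    have h2 := H41.TK.h0_eq hC _ hm
    exact_mod_cast h2
  refine ⟨fun m => (δ m : ℝ) + (H41.TK.chi C : ℤ), ?_, pl_lin δ _, ?_, fun c => ?_⟩
  · intro m
    refine ⟨(- 2 * H41.TK.chi C - δ m).toNat + 1, fun n hn => heq _ ?_⟩
    rw [map_add, map_nsmul, nsmul_eq_mul]
    have h1 : (n : ℤ) * 1 ≤ n * δ H := by
      apply mul_le_mul_of_nonneg_left (by omega) (by omega)
    omega
  · refine ⟨max 0 (- 2 * H41.TK.chi C + 1), fun j n hj hn => (heq _ ?_).le⟩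
    rw [hpt]
    have hj0 : 0 ≤ j := le_trans (le_max_left _ _) hj
    have h1 : j * 1 ≤ j * δ H := mul_le_mul_of_nonneg_left (by omega) hj0
    have h2 : 0 ≤ n * δ N := mul_nonneg hn hN0
    have h3 : - 2 * H41.TK.chi C + 1 ≤ j := le_trans (le_max_right _ _) hj
    omega
  · refine ⟨((max ((h0 (1 : Cart C) 1 : ℤ) - H41.TK.chi C) (- (c * δ H) - H41.TK.chi C) : ℤ) : ℝ), 0,
      fun j n hj hn => ?_⟩
    have h2 : 0 ≤ n * δ N := mul_nonneg hn hN0
    have h3 : c * δ H ≤ j * δ H := mul_le_mul_of_nonneg_right hj hH.le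
    have h4 := hpt j n
    have h5 : (h0 (φ (bas b (j • H + n • N))) 1 : ℤ) ≤ δ (j • H + n • N) + H41.TK.chi C +
        max ((h0 (1 : Cart C) 1 : ℤ) - H41.TK.chi C) (- (c * δ H) - H41.TK.chi C) := by
      by_cases h6 : 0 ≤ δ (j • H + n • N)
      · have h7 := H41.TK.h0_le_dg hC _ h6
        rw [← hδ] at h7
        omega
      · have h7 := H41.TK.h0_neg hC (φ (bas b (j • H + n • N))) (by
          rw [← hδ]
          omega)
        rw [h7]
        push_cast
        omega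
    have h6 : ((h0 (φ (bas b (j • H + n • N))) 1 : ℤ) : ℝ) ≤ ((δ (j • H + n • N) + H41.TK.chi C +
        max ((h0 (1 : Cart C) 1 : ℤ) - H41.TK.chi C) (- (c * δ H) - H41.TK.chi C) : ℤ) : ℝ) := by
      exact_mod_cast h5
    rw [Int.cast_add, Int.cast_add] at h6
    exact_mod_cast h6

/-- the numbers of sections on a closed subvariety of dimension at most one -/
theorem sb_piece [CharZero k] [IsAlgClosed k] {κ : Type} [Field κ] [Algebra k κ] {C : Mod k κ} (hC : IsVar C)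
    (hg : ∃ g, Gen C g) (htr : Algebra.trdeg k κ < 2)
    (φ : Cart X →* Cart C) (hφ : ∀ A : Cart X, Ample A → Ample (φ A))
    (hN : ∀ n : ℕ, Ample (bas b (H + n • N))) :
    ∃ Q, SB H N (fun m => (h0 (φ (bas b m)) 1 : ℝ)) Q := by
  obtain ⟨n, hn⟩ := Cardinal.lt_aleph0.1 (htr.trans (by exact_mod_cast Cardinal.natCast_lt_aleph0 (n := 2)))
  have hn2 : n < 2 := by
    rw [hn] at htr
    exact_mod_cast htr
  rcases Nat.lt_succ_iff_lt_or_eq.1 hn2 with h1 | h1
  · have h2 : n = 0 := by omega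
    rw [h2, Nat.cast_zero] at hn
    simp only [h0_pt hn]
    exact ⟨_, sb_const _⟩
  · rw [h1, Nat.cast_one] at hn
    exact sb_curve ⟨hC, hg, ⟨_, hφ _ (hN 0)⟩, hn⟩ φ hφ hN

/-- the surfaces -/
theorem tb_surf [CharZero k] [IsAlgClosed k] (h : Hyp X) (hν : Num ν) (hb : ∀ i, cv ν (b i) = Pi.single i 1)
    {q : Fin 4 → ℝ} {l : V 2 →ₗ[ℝ] ℝ} {c : ℝ} (hcy : CY q l c ν) (hSP : SerP k) {ζ : X.P}
    (htr : Algebra.trdeg k (X.kap ζ) = 2) {S : Cart X} (hS : SPr X ζ S) (hH : Ample (bas b H))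
    (hB : Bpf (bas b H)) (hN : ∀ n : ℕ, Ample (bas b (H + n • N))) :
    TB H N (fun m => (h0 (resD h.var ζ (bas b m)) 1 : ℝ)) (fun m => chT q l c (toR (cz ν S)) (toR m)) where
  ev := (gt h hν hb hcy hSP htr hS hH hB).ev
  pol := (gt h hν hb hcy hSP htr hS hH hB).pol
  hH := (gt h hν hb hcy hSP htr hS hH hB).hH
  st := by
    intro G hG
    have hG' : 0 < h0 (resD h.var ζ (bas b G)) 1 := by exact_mod_cast hG
    obtain ⟨r, ζ', c', h1, h2⟩ := step_of (H := H) (isVar_sub h.var ζ) ⟨_, gen_sub h.var ζ⟩ hSP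
      (resD h.var ζ) (res_ample h.var ζ _ hH) G hG'
    have h3 : ∀ i, ∃ Q, SB H N
        (fun m => (h0 (resD (isVar_sub h.var ζ) (ζ' i) (resD h.var ζ (bas b m))) 1 : ℝ)) Q := fun i =>
      sb_piece (isVar_sub _ _) ⟨_, gen_sub _ _⟩ (by rw [← htr]; exact h1 i)
        ((resD (isVar_sub h.var ζ) (ζ' i)).comp (resD h.var ζ))
        (fun A hA => res_ample _ _ _ (res_ample _ _ _ hA)) hN
    choose Q hQ using h3
    exact ⟨_, _, sb_sum _ _ _ fun i _ => sb_shift (hQ i) (c' i), h2⟩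

/-- a quadratic polynomial with positive leading coefficient -/
theorem quad_inf {A : ℝ} (hA : 0 < A) (B C M : ℝ) : ∃ n₀ : ℤ, ∀ n : ℤ, n₀ ≤ n → M < A * (n : ℝ) ^ 2 + B * n + C := by
  obtain ⟨m, hm⟩ := exists_nat_gt ((|B| + |C| + |M| + 1) / A)
  rw [div_lt_iff₀ hA] at hm
  refine ⟨max m 1, fun n hn => ?_⟩
  have h1 : (m : ℝ) ≤ n := by exact_mod_cast (le_trans (le_max_left _ _) hn)
  have h2 : (1 : ℝ) ≤ n := by exact_mod_cast (le_trans (le_max_right _ _) hn)
  have h3 : |B| + |C| + |M| + 1 ≤ A * n := by nlinarith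
  have h4 := neg_abs_le B
  have h5 := neg_abs_le C
  have h6 := le_abs_self M
  have h7 : (n : ℝ) * (|B| + |C| + |M| + 1) ≤ n * (A * n) := mul_le_mul_of_nonneg_left h3 (by linarith)
  have h8 : -(n * |B|) ≤ B * n := by nlinarith
  have h9 := abs_nonneg C
  have h10 := abs_nonneg M
  nlinarith

theorem chT_inf (q : Fin 4 → ℝ) (l : V 2 →ₗ[ℝ] ℝ) (c : ℝ) (t : V 2) (ht : 0 < tau q (toR N) (toR N) t) (M : ℝ) :
    ∃ n₀ : ℤ, ∀ n : ℤ, n₀ ≤ n → M < chT q l c t (toR (-H + n • N)) := by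
  obtain ⟨n₀, h0⟩ := quad_inf (A := tau q (toR N) (toR N) t / 2) (by linarith)
    (- tau q (toR H) (toR N) t - tau q (toR N) t t / 2)
    (tau q (toR H) (toR H) t / 2 + tau q (toR H) t t / 2 + tau q t t t / 6 + l t) M
  refine ⟨n₀, fun n hn => ?_⟩
  have h1 := h0 n hn
  have e0 : toR (-H + n • N) = (n : ℝ) • toR N - toR H := by
    rw [neg_add_eq_sub, toR_sub, toR_zsmul]
  rw [chT_eq, e0, tau_sub, tau_sub2, tau_sub2, tau_smul, tau_smul2, tau_smul2, tau_smul, tau_sub, tau_smul,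
    tau_comm q (toR N) (toR H)]
  have e1 : tau q (toR H) (toR N) t = tau q (toR H) (toR N) t := rfl
  linarith

/-- the numbers of sections on a surface with `N.N.S > 0` -/
theorem sb_surf [CharZero k] [IsAlgClosed k] (h : Hyp X) (hν : Num ν) (hb : ∀ i, cv ν (b i) = Pi.single i 1)
    {q : Fin 4 → ℝ} {l : V 2 →ₗ[ℝ] ℝ} {c : ℝ} (hcy : CY q l c ν) (hSP : SerP k) {ζ : X.P}
    (htr : Algebra.trdeg k (X.kap ζ) = 2) {S : Cart X} (hS : SPr X ζ S) (hH : Ample (bas b H))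
    (hB : Bpf (bas b H)) (hN : ∀ n : ℕ, Ample (bas b (H + n • N)))
    (ht : 0 < tau q (toR N) (toR N) (cv ν S)) :
    SB H N (fun m => (h0 (resD h.var ζ (bas b m)) 1 : ℝ)) (fun m => chT q l c (toR (cz ν S)) (toR m)) :=
  tb_sb (tb_surf h hν hb hcy hSP htr hS hH hB hN) fun M => chT_inf q l c _ ht M

end Pool.Agent.H39.TK
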