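import Pool.Agent.H39.TK.Stp

/-!
# Theorem K, chapter CHAIN: the chain lemma

`chain`: `J' ≤ J` homogeneous ideals.  There are finitely many points `ζ i` and degrees `c i` such that
(a) `h J W ≤ h J' W + ∑ i, h0 (W - c i H on the closure of ζ i)` for ALL Cartier divisors `W`;
(b) equality for `W + n H`, `n ≥ n₀ (W)`;
(c) `J'_(ζ i) ≠ J_(ζ i)`.

Proof: `exists_pr`: if `J' < J` there is an element `g` of `J`, not in `J'`, such that `(J' : g)` is prime (a maximal
ideal of this kind is prime).  By `pri` it is the ideal of a point, and `stp_le`, `stp_eq`, `stp_ne` apply to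
`J' ≤ J' + B g`, or it has no zeros, and the ideal sheaves of `J'` and `J' + B g` are the same (`ad_same`).  Noetherian
induction on `J'`.
-/

set_option autoImplicit false

namespace Pool.Agent.H39.TK

open Pool.Agent.H54.RV Pool.Agent.H83.TU Pool.Agent.H83.TK

variable {k K : Type} [Field k] [Field K] [Algebra k K] {X : Mod k K} {H : Cart X}

theorem exists_pr (hN : Noe H) (J' J : HI H) (h : ¬ J ≤ J') :
    ∃ (c : ℕ) (g : K), g ∈ J.J c ∧ g ∉ J'.J c ∧ PrI (col J' g c) := by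
  have hwf : WellFounded (fun P Q : HI H => P > Q) := hN.wf
  let S : Set (HI H) := {P | ∃ (c : ℕ) (g : K), g ∈ J.J c ∧ g ∉ J'.J c ∧ P = col J' g c}
  have hne : S.Nonempty := by
    rw [HI.le_iff] at h
    push Not at h
    obtain ⟨c, hc⟩ := h
    obtain ⟨g, h1, h2⟩ := Set.not_subset.1 hc
    exact ⟨_, c, g, h1, h2, rfl⟩
  obtain ⟨P, ⟨c, g, h1, h2, rfl⟩, hmax⟩ := hwf.has_min S hne
  refine ⟨c, g, h1, h2, ?_⟩
  constructor
  · rintro ⟨-, h4⟩
    rw [one_mul, zero_add] at h4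
    exact h2 h4
  · intro m n a b ha hb hab
    by_cases hbP : b * g ∈ J'.J (n + c)
    · exact Or.inr ⟨hb, hbP⟩
    left
    have hS : col J' (b * g) (n + c) ∈ S := ⟨n + c, b * g, J.mul n c b g hb h1, hbP, rfl⟩
    have hle : col J' g c ≤ col J' (b * g) (n + c) := by
      rintro i x ⟨hx, hx'⟩
      refine ⟨hx, ?_⟩
      have h4 := J'.mul n (i + c) b _ hb hx'
      have e1 : b * (x * g) = x * (b * g) := by ring
      have e2 : n + (i + c) = i + (n + c) := by omega
      rwa [e1, e2] at h4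
    have heq : col J' (b * g) (n + c) = col J' g c := by
      by_contra hne'
      exact hmax _ hS (lt_of_le_of_ne hle (Ne.symm hne'))
    rw [← heq]
    refine ⟨ha, ?_⟩
    have h5 := hab.2
    have e1 : a * b * g = a * (b * g) := by ring
    have e2 : m + n + c = m + (n + c) := by omega
    rwa [e1, e2] at h5

theorem ad_same (hX : IsVar X) (hH : Ample H) (J : HI H) (g : K) (c : ℕ) (hg : g ∈ secL H c)
    (h : ∀ x, (1 : K) ∈ (col J g c).at_ x) (x : X.P) : (ad J g c hg).at_ x = J.at_ x := by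
  apply le_antisymm _ (at_mono (le_ad J g c hg) x)
  intro f hf
  obtain ⟨α, hα, h1⟩ := (ad_at hX hH J g c hg x f).1 hf
  have h2 := (col_at hX hH J g c x 1 (X.O x).one_mem).1 (h x)
  rw [one_mul] at h2
  have h3 := (J.at_ x).add_mem h1 (at_smul hX hH J x α _ hα h2)
  rwa [sub_add_cancel] at h3

theorem h_congr {J J' : HI H} (h : ∀ x, J.at_ x = J'.at_ x) (W : Cart X) : J.h W = J'.h W := by
  have h1 : J.sec W = J'.sec W := by
    ext f
    rw [HI.mem_sec', HI.mem_sec']
    exact forall_congr' fun x => by rw [h x]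
  rw [HI.h, HI.h, h1]

theorem chain (hX : IsVar X) (hγ : ∃ γ, Gen X γ) (H : Cart X) (hH : Ample H) (hN : Noe H) (hF : FinX X)
    (hZ : FinZ hX) (hS : Ser hX H) (J' J : HI H) (hJ : J' ≤ J) :
    ∃ (r : ℕ) (ζ : Fin r → X.P) (c : Fin r → ℕ),
      (∀ W : Cart X, J.h W ≤ J'.h W + ∑ i, h0 (resD hX (ζ i) (W * (H ^ c i)⁻¹)) 1) ∧
      (∀ W : Cart X, ∃ n₀ : ℕ, ∀ n ≥ n₀,
        J.h (W * H ^ n) = J'.h (W * H ^ n) + ∑ i, h0 (resD hX (ζ i) (W * H ^ n * (H ^ c i)⁻¹)) 1) ∧
      ∀ i, J'.at_ (ζ i) ≠ J.at_ (ζ i) := by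
  have hwf : WellFounded (fun P Q : HI H => P > Q) := hN.wf
  revert hJ
  induction J' using hwf.induction with
  | _ J' ih =>
    intro hJ
    by_cases hle : J ≤ J'
    · obtain rfl := le_antisymm hJ hle
      refine ⟨0, Fin.elim0, Fin.elim0, fun W => ?_, fun W => ⟨0, fun n _ => ?_⟩, fun i => i.elim0⟩
      · simp
      · simp
    obtain ⟨c₀, g, hgJ, hgJ', hpr⟩ := exists_pr hN J' J hle
    have hg : g ∈ secL H c₀ := J.le c₀ hgJ
    have hlt : ad J' g c₀ hg > J' := by
      refine lt_of_le_of_ne (le_ad J' g c₀ hg) fun h => hgJ' ?_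
      rw [h]
      exact mem_ad_self J' g c₀ hg
    have hle1 : ad J' g c₀ hg ≤ J := ad_le hJ g c₀ hg hgJ
    obtain ⟨r, ζ, c, ha, hb, hc⟩ := ih _ hlt hle1
    rcases pri hX hγ hH _ hpr with h1 | ⟨ζ₀, hζ₀⟩
    · have h2 := ad_same hX hH J' g c₀ hg h1
      have h3 := h_congr h2
      refine ⟨r, ζ, c, fun W => ?_, fun W => ?_, fun i => ?_⟩
      · rw [← h3]
        exact ha W
      · obtain ⟨n₀, h0⟩ := hb W
        refine ⟨n₀, fun n hn => ?_⟩
        rw [← h3]
        exact h0 n hn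
      · rw [← h2]
        exact hc i
    · have hsum : ∀ W : Cart X, (∑ i, h0 (resD hX ((Fin.cons ζ₀ ζ : Fin (r + 1) → X.P) i)
          (W * (H ^ (Fin.cons c₀ c : Fin (r + 1) → ℕ) i)⁻¹)) 1) =
          h0 (resD hX ζ₀ (W * (H ^ c₀)⁻¹)) 1 + ∑ i, h0 (resD hX (ζ i) (W * (H ^ c i)⁻¹)) 1 :=
        fun W => Fin.sum_univ_succ _
      refine ⟨r + 1, Fin.cons ζ₀ ζ, Fin.cons c₀ c, fun W => ?_, fun W => ?_, fun i => ?_⟩
      · rw [hsum]
        have h2 := ha W
        have h3 := stp_le hX hH hF hZ J' g c₀ hg ζ₀ hζ₀ W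
        omega
      · obtain ⟨n₁, h1⟩ := hb W
        obtain ⟨n₂, h2⟩ := stp_eq hX hH hF hS J' g c₀ hg ζ₀ hζ₀ W
        refine ⟨max n₁ n₂, fun n hn => ?_⟩
        rw [hsum]
        have h3 := h1 n (le_trans (le_max_left _ _) hn)
        have h4 := h2 n (le_trans (le_max_right _ _) hn)
        omega
      · refine Fin.cases ?_ (fun i => ?_) i
        · rw [Fin.cons_zero]
          intro h
          apply stp_ne hX hH J' g c₀ hg ζ₀ hζ₀
          apply le_antisymm (at_mono (le_ad J' g c₀ hg) ζ₀)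
          rw [h]
          exact at_mono hle1 ζ₀
        · rw [Fin.cons_succ]
          intro h
          apply hc i
          apply le_antisymm (at_mono hle1 (ζ i))
          rw [← h]
          exact at_mono (le_ad J' g c₀ hg) (ζ i)

end Pool.Agent.H39.TK
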