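import Pool.Agent.H39.TK.At

/-!
# Theorem K, chapter CHAIN: quotient ideals and sums

* `col_at`: for `α ∈ O x`: `α ∈ (J : g)_x` if and only if `α * (g * H.eq x ^ c) ∈ J_x`.
* `ad_at`: `(J + B g)_x = J_x + O x (g * H.eq x ^ c)`.
-/

set_option autoImplicit false

namespace Pool.Agent.H39.TK

open Pool.Agent.H54.RV Pool.Agent.H83.TU Pool.Agent.H83.TK

variable {k K : Type} [Field k] [Field K] [Algebra k K] {X : Mod k K} {H : Cart X}

/-- a local function times a power of the local equation, as a fraction -/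
theorem lfc (hX : IsVar X) (hH : Ample H) (x : X.P) (α : K) (hα : α ∈ X.O x) (c : ℕ) :
    ∃ (m : ℕ) (s : K), Sec H (m + c) s ∧ x ∈ nz H (m + c) s ∧ Sec H m (s * (α * H.eq x ^ c)) := by
  obtain ⟨m₀, h0⟩ := lf hX H (H ^ c)⁻¹ hH x (α * H.eq x ^ c) (by
    have h1 := pow_ne_zero c (H.ne x)
    rw [inv_eq, pow_eq, mul_assoc, mul_inv_cancel₀ h1, mul_one]
    exact hα)
  obtain ⟨s, hs1, hs2, hs3⟩ := h0 (m₀ + c) (by omega)
  refine ⟨m₀, s, hs1, hs2, fun y => ?_⟩
  have h2 := hs3 y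
  rw [pow_one, mul_eq, pow_eq, inv_eq, pow_eq] at h2
  have e1 : s * (α * H.eq x ^ c) * (H.eq y ^ (m₀ + c) * (H.eq y ^ c)⁻¹) = s * (α * H.eq x ^ c) * H.eq y ^ m₀ := by
    have h3 := H.ne y
    rw [pow_add]
    field_simp
  rwa [e1] at h2

theorem col_at (hX : IsVar X) (hH : Ample H) (J : HI H) (g : K) (c : ℕ) (x : X.P) (α : K) (hα : α ∈ X.O x) :
    α ∈ (col J g c).at_ x ↔ α * (g * H.eq x ^ c) ∈ J.at_ x := by
  constructor
  · rintro ⟨n, s, hs, hx, -, h⟩
    have h1 := at_of_mem hX hH J x (n + c) _ h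
    have e1 : s * α * g * H.eq x ^ (n + c) = s * H.eq x ^ n * (α * (g * H.eq x ^ c)) := by ring
    rw [e1, at_un hX hH J x _ _ hx] at h1
    exact h1
  · rintro ⟨n, s, hs, hx, h⟩
    obtain ⟨m, t, ht1, ht2, ht3⟩ := lfc hX hH x α hα c
    -- `t α H ^ c` has degree `m`; `s` times it is in the quotient ideal
    have h1 : s * (t * (α * H.eq x ^ c)) ∈ (col J g c).J (n + m) := by
      refine ⟨smul_sec hs ht3, ?_⟩
      have e1 : s * (t * (α * H.eq x ^ c)) * g = t * (s * (α * (g * H.eq x ^ c))) := by ring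
      have e2 : n + m + c = m + c + n := by omega
      rw [e1, e2]
      exact J.mul (m + c) n _ _ ht1 h
    have h2 := at_of_mem hX hH (col J g c) x (n + m) _ h1
    have e3 : s * (t * (α * H.eq x ^ c)) * H.eq x ^ (n + m) =
        s * H.eq x ^ n * (t * H.eq x ^ (m + c)) * α := by ring
    rw [e3, at_un hX hH _ x _ _ (un_mul hx ht2)] at h2
    exact h2

theorem le_ad (J : HI H) (g : K) (c : ℕ) (hg : g ∈ secL H c) : J ≤ ad J g c hg :=
  fun n a ha => ⟨a, ha, 0, Or.inr rfl, by rw [zero_mul, add_zero]⟩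

theorem mem_ad_self (J : HI H) (g : K) (c : ℕ) (hg : g ∈ secL H c) : g ∈ (ad J g c hg).J c := by
  refine ⟨0, (J.J c).zero_mem, 1, Or.inl ⟨le_rfl, ?_⟩, by rw [one_mul, zero_add]⟩
  rw [Nat.sub_self]
  exact one_sec H

theorem ad_at (hX : IsVar X) (hH : Ample H) (J : HI H) (g : K) (c : ℕ) (hg : g ∈ secL H c) (x : X.P) (f : K) :
    f ∈ (ad J g c hg).at_ x ↔ ∃ α ∈ X.O x, f - α * (g * H.eq x ^ c) ∈ J.at_ x := by
  constructor
  · rintro ⟨n, s, hs, hx, j, hj, b, hb, h⟩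
    have hs' : Un (X.O x) (s * H.eq x ^ n) := hx
    have hs0 : s ≠ 0 := fun h0 => hs'.1 (by rw [h0, zero_mul])
    have hHx := H.ne x
    rcases hb with ⟨hcn, hb⟩ | rfl
    · obtain ⟨i, rfl⟩ : ∃ i, n = i + c := ⟨n - c, by omega⟩
      rw [Nat.add_sub_cancel] at hb
      refine ⟨(b * H.eq x ^ i) / (s * H.eq x ^ (i + c)), ?_, i + c, s, hs, hx, ?_⟩
      · rw [div_eq_mul_inv]
        exact (X.O x).mul_mem (hb x) hs'.2.2
      · have e1 : s * (f - b * H.eq x ^ i / (s * H.eq x ^ (i + c)) * (g * H.eq x ^ c)) = s * f - b * g := by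
          rw [pow_add]
          field_simp
        rw [e1, h, add_sub_cancel_right]
        exact hj
    · refine ⟨0, (X.O x).zero_mem, n, s, hs, hx, ?_⟩
      rw [zero_mul, sub_zero, h, zero_mul, add_zero]
      exact hj
  · rintro ⟨α, hα, h⟩
    have h2 := at_smul hX hH _ x α _ hα (at_of_mem hX hH _ x c g (mem_ad_self J g c hg))
    have h3 := (Submodule.add_mem _ (at_mono (le_ad J g c hg) x h) h2)
    rwa [sub_add_cancel] at h3

theorem ad_le {J J' : HI H} (h : J ≤ J') (g : K) (c : ℕ) (hg : g ∈ secL H c) (hg' : g ∈ J'.J c) :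
    ad J g c hg ≤ J' := by
  rintro n a ⟨j, hj, b, hb, rfl⟩
  refine (J'.J n).add_mem (h n hj) ?_
  rcases hb with ⟨h1, h2⟩ | rfl
  · have h3 := J'.mul (n - c) c b g h2 hg'
    rwa [Nat.sub_add_cancel h1] at h3
  · rw [zero_mul]
    exact (J'.J n).zero_mem

end Pool.Agent.H39.TK
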