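import Pool.Agent.H39.TK.Base

/-!
# Theorem K, chapter CHAIN: fractions

* `lf`: `H` ample, `f` a local section of `M` at the point `x`.  For all large `m` there is a section `s` of `m H`
  which does not vanish at `x` such that `s * f` is a section of `m H + M`.
* `spec_nz`: a section which does not vanish at `x` does not vanish at the points `ζ` with `x` in their closure.
* `sep`: `ζ` a point, `x` not in its closure: there is a section of a multiple of `H` which vanishes at `ζ`, but not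
  at `x`.
-/

set_option autoImplicit false

namespace Pool.Agent.H39.TK

open Pool.Agent.H54.RV Pool.Agent.H83.TU Pool.Agent.H83.TK

variable {k K : Type} [Field k] [Field K] [Algebra k K] {X : Mod k K}

theorem lf (hX : IsVar X) (H M : Cart X) (hH : Ample H) (x : X.P) (f : K) (hf : f * M.eq x ∈ X.O x) :
    ∃ m₀ : ℕ, ∀ m ≥ m₀, ∃ s : K, Sec H m s ∧ x ∈ nz H m s ∧ Sec (H ^ m * M) 1 (s * f) := by
  obtain ⟨m₁, h1⟩ := un_pt hX H M hH x
  obtain ⟨m₂, h2⟩ := un_pt hX H 1 hH x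
  set q := max m₁ m₂ with hq
  obtain ⟨v, hv, hvx⟩ := h1 q (le_max_left _ _)
  obtain ⟨w, hw, hwx⟩ := h2 q (le_max_right _ _)
  have hv' : ∀ y, v * (H.eq y ^ q * M.eq y) ∈ X.O y := by
    intro y
    have h3 := hv y
    rwa [pow_one, mul_eq, pow_eq] at h3
  have hvx' : Un (X.O x) (v * (H.eq x ^ q * M.eq x)) := by
    have h3 : Un (X.O x) (v * (H ^ q * M).eq x ^ 1) := hvx
    rwa [pow_one, mul_eq, pow_eq] at h3
  have hw' : ∀ y, w * H.eq y ^ q ∈ X.O y := by
    intro y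
    have h3 := hw y
    rwa [pow_one, mul_eq, pow_eq, one_eq, mul_one] at h3
  have hwx' : Un (X.O x) (w * H.eq x ^ q) := by
    have h3 : Un (X.O x) (w * (H ^ q * 1).eq x ^ 1) := hwx
    rwa [pow_one, mul_eq, pow_eq, one_eq, mul_one] at h3
  have hv0 : v ≠ 0 := fun h => hvx'.1 (by rw [h, zero_mul])
  have hHx := H.ne x
  have hMx := M.ne x
  have hfw : f * w / v ∈ X.O x := by
    have e1 : f * w / v = f * M.eq x * ((w * H.eq x ^ q) / (v * (H.eq x ^ q * M.eq x))) := by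
      field_simp
    rw [e1]
    exact (X.O x).mul_mem hf (un_div hwx' hvx').2.1
  obtain ⟨m₃, h3⟩ := uf_pt hX H hH x (f * w / v) hfw
  refine ⟨m₃ + q, fun m hm => ?_⟩
  obtain ⟨i, rfl⟩ : ∃ i, m = i + q := ⟨m - q, by omega⟩
  obtain ⟨s, hs1, hs2, hs3⟩ := h3 i (by omega)
  refine ⟨s * w, smul_sec hs1 hw', smul_nz hs3 hwx', fun y => ?_⟩
  have e2 : s * w * f * (H ^ (i + q) * M).eq y ^ 1 =
      s * (f * w / v) * H.eq y ^ i * (v * (H.eq y ^ q * M.eq y)) := by
    rw [pow_one, mul_eq, pow_eq]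
    field_simp
    ring
  rw [e2]
  exact (X.O y).mul_mem (hs2 y) (hv' y)

theorem spec_nz (hX : IsVar X) {H : Cart X} {n : ℕ} {s : K} {ζ x : X.P} (h : ζ ⤳ x) (hx : x ∈ nz H n s) :
    ζ ∈ nz H n s := by
  have h1 : Un (X.O ζ) (s * H.eq x ^ n) := un_mono (hX.spec _ _ h) hx
  have h2 := un_pow (quo_un H ζ x h) n
  have h3 : s * H.eq x ^ n = s * H.eq ζ ^ n * (H.eq x / H.eq ζ) ^ n := by
    have h4 := H.ne ζ
    rw [div_pow]
    field_simp
  rw [h3, un_mul_un h2] at h1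
  exact h1

theorem sep (hX : IsVar X) (H : Cart X) (hH : Ample H) (ζ x : X.P) (h : ¬ ζ ⤳ x) :
    ∃ (n : ℕ) (s : K), Sec H n s ∧ x ∈ nz H n s ∧ ζ ∉ nz H n s := by
  rw [specializes_iff_forall_open] at h
  push Not at h
  obtain ⟨V, hV, hxV, hζV⟩ := h
  obtain ⟨n, hn, s, hs, hx, haff⟩ := hH x
  obtain ⟨a, ha1, ha2, ha3⟩ := hX.bas (nz H n s) V x haff hV hx hxV
  obtain ⟨N, hN⟩ := ext_sec hX H 1 n s a hs (fun y hy => by
    rw [one_eq, mul_one]
    exact ha1 y hy)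
  have hN' : ∀ y, s ^ N * a * (H.eq y ^ n) ^ N ∈ X.O y := by
    intro y
    have h1 := hN N le_rfl y
    rwa [one_eq, mul_one] at h1
  have e1 : ∀ y, s ^ N * a * s * H.eq y ^ (n * N + n) = s ^ N * a * (H.eq y ^ n) ^ N * (s * H.eq y ^ n) := by
    intro y
    rw [pow_add, pow_mul]
    ring
  have e2 : ∀ y, s ^ N * a * (H.eq y ^ n) ^ N = a * (s * H.eq y ^ n) ^ N := by
    intro y
    rw [mul_pow]
    ring
  refine ⟨n * N + n, s ^ N * a * s, fun y => ?_, ?_, ?_⟩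
  · rw [e1]
    exact (X.O y).mul_mem (hN' y) (hs y)
  · change Un (X.O x) (s ^ N * a * s * H.eq x ^ (n * N + n))
    rw [e1, e2]
    exact un_mul (un_mul ha2 (un_pow hx N)) hx
  · intro h1
    change Un (X.O ζ) (s ^ N * a * s * H.eq ζ ^ (n * N + n)) at h1
    rw [e1, un_mul_iff (hN' ζ) (hs ζ)] at h1
    obtain ⟨h2, h3⟩ := h1
    rw [e2, un_mul_un (un_pow h3 N)] at h2
    exact hζV (ha3 ζ h3 h2)

end Pool.Agent.H39.TK
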