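import Pool.Agent.H39.TK.Pri

/-!
# Theorem K, chapter CHAIN: one step of the filtration

`J` a homogeneous ideal, `g` of degree `c`, `(J : g)` the ideal of the sections which vanish at `ζ`.
* `phi`: for a section `f` of `W` with values in the ideal sheaf of `J + B g`: `f * W.eq ζ = α * (g * H.eq ζ ^ c)` modulo
  `J_ζ`, and `phi f` is the residue class of `α`.
* `phi_at`, `phi_sec`: it is a section of the restriction of `W - c H` to the closure of `ζ`; `phi_ker`: the kernel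
  consists of the sections with values in the ideal sheaf of `J`.
* `stp_le`, `stp_eq`, `stp_ne`: the step of the chain lemma.
-/

set_option autoImplicit false

namespace Pool.Agent.H39.TK

open Pool.Agent.H54.RV Pool.Agent.H83.TU Pool.Agent.H83.TK

variable {k K : Type} [Field k] [Field K] [Algebra k K] {X : Mod k K} {H : Cart X}

section lin

variable {κ : Type} [Field κ] [Algebra k κ]

/-- rank and nullity, for maps to a field -/
theorem rank_null (V : Submodule k K) [Module.Finite k V] (f : V →ₗ[k] κ) :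
    Module.finrank k (LinearMap.range f) + Module.finrank k (LinearMap.ker f) = Module.finrank k V :=
  LinearMap.finrank_range_add_finrank_ker f

theorem fin_mono (V W : Submodule k κ) [Module.Finite k W] (h : V ≤ W) :
    Module.finrank k V ≤ Module.finrank k W := Submodule.finrank_mono h

end lin

theorem mem_iff (hX : IsVar X) (hH : Ample H) (J : HI H) (g : K) (c : ℕ) (ζ : X.P)
    (hP : col J g c = van H ζ) (x : X.P) (α : K) (hα : α ∈ X.O x) :
    α * (g * H.eq x ^ c) ∈ J.at_ x ↔ (ζ ⤳ x → ¬ Un (X.O ζ) α) := by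
  rw [← col_at hX hH J g c x α hα, hP, van_at hX hH]
  exact ⟨fun h => h.2, fun h => ⟨hα, h⟩⟩

theorem rs_sub' (ζ : X.P) {a b : K} (ha : a ∈ X.O ζ) (hb : b ∈ X.O ζ) (h : ¬ Un (X.O ζ) (a - b)) :
    X.rs ζ a = X.rs ζ b := by
  have hab := (X.O ζ).sub_mem ha hb
  have h1 : X.rs ζ (a - b) = 0 := by
    by_contra h2
    exact h ((rs_ne ζ hab).1 h2)
  have h2 := rs_add ζ hab hb
  rwa [sub_add_cancel, h1, zero_add] at h2

theorem uni (hX : IsVar X) (hH : Ample H) (J : HI H) (g : K) (c : ℕ) (ζ : X.P)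
    (hP : col J g c = van H ζ) {f α β : K} (hα : α ∈ X.O ζ) (hβ : β ∈ X.O ζ)
    (h1 : f - α * (g * H.eq ζ ^ c) ∈ J.at_ ζ) (h2 : f - β * (g * H.eq ζ ^ c) ∈ J.at_ ζ) :
    X.rs ζ α = X.rs ζ β := by
  refine rs_sub' ζ hα hβ ?_
  have h3 := (J.at_ ζ).sub_mem h2 h1
  have e1 : f - β * (g * H.eq ζ ^ c) - (f - α * (g * H.eq ζ ^ c)) = (α - β) * (g * H.eq ζ ^ c) := by ring
  rw [e1, mem_iff hX hH J g c ζ hP ζ _ ((X.O ζ).sub_mem hα hβ)] at h3
  exact h3 specializes_rfl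

section phi

variable (hX : IsVar X) (hH : Ample H) (J : HI H) (g : K) (c : ℕ) (hg : g ∈ secL H c) (ζ : X.P)
  (hP : col J g c = van H ζ) (W : Cart X)

/-- the residue class of the quotient by `g` at `ζ` -/
noncomputable def phi : (ad J g c hg).sec W →ₗ[k] X.kap ζ where
  toFun f := X.rs ζ (Classical.choose ((ad_at hX hH J g c hg ζ (f.1 * W.eq ζ)).1 (f.2 ζ)))
  map_add' f f' := by
    have h1 := Classical.choose_spec ((ad_at hX hH J g c hg ζ (f.1 * W.eq ζ)).1 (f.2 ζ))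
    have h2 := Classical.choose_spec ((ad_at hX hH J g c hg ζ (f'.1 * W.eq ζ)).1 (f'.2 ζ))
    have h3 := Classical.choose_spec ((ad_at hX hH J g c hg ζ ((f + f').1 * W.eq ζ)).1 ((f + f').2 ζ))
    set a := Classical.choose ((ad_at hX hH J g c hg ζ (f.1 * W.eq ζ)).1 (f.2 ζ))
    set b := Classical.choose ((ad_at hX hH J g c hg ζ (f'.1 * W.eq ζ)).1 (f'.2 ζ))
    rw [← rs_add ζ h1.1 h2.1]
    refine uni hX hH J g c ζ hP h3.1 ((X.O ζ).add_mem h1.1 h2.1) h3.2 ?_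
    have h4 := (J.at_ ζ).add_mem h1.2 h2.2
    have e1 : f.1 * W.eq ζ - a * (g * H.eq ζ ^ c) + (f'.1 * W.eq ζ - b * (g * H.eq ζ ^ c)) =
        (f + f').1 * W.eq ζ - (a + b) * (g * H.eq ζ ^ c) := by
      change _ = (f.1 + f'.1) * W.eq ζ - (a + b) * (g * H.eq ζ ^ c)
      ring
    rwa [e1] at h4
  map_smul' d f := by
    have h1 := Classical.choose_spec ((ad_at hX hH J g c hg ζ (f.1 * W.eq ζ)).1 (f.2 ζ))
    have h3 := Classical.choose_spec ((ad_at hX hH J g c hg ζ ((d • f).1 * W.eq ζ)).1 ((d • f).2 ζ))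
    set a := Classical.choose ((ad_at hX hH J g c hg ζ (f.1 * W.eq ζ)).1 (f.2 ζ))
    have h5 : RingHom.id k d • X.rs ζ a = X.rs ζ (algebraMap k K d * a) := by
      rw [rs_mul ζ ((X.O ζ).algebraMap_mem d) h1.1, rs_alg, ← Algebra.smul_def]
      rfl
    rw [h5]
    refine uni hX hH J g c ζ hP h3.1 ((X.O ζ).mul_mem ((X.O ζ).algebraMap_mem d) h1.1) h3.2 ?_
    have h4 := (J.at_ ζ).smul_mem d h1.2
    have e1 : d • (f.1 * W.eq ζ - a * (g * H.eq ζ ^ c)) =
        (d • f).1 * W.eq ζ - algebraMap k K d * a * (g * H.eq ζ ^ c) := by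
      change _ = (d • f.1) * W.eq ζ - algebraMap k K d * a * (g * H.eq ζ ^ c)
      rw [Algebra.smul_def, Algebra.smul_def]
      ring
    rwa [e1] at h4

theorem phi_eq (f : (ad J g c hg).sec W) (α : K) (hα : α ∈ X.O ζ)
    (h : f.1 * W.eq ζ - α * (g * H.eq ζ ^ c) ∈ J.at_ ζ) : phi hX hH J g c hg ζ hP W f = X.rs ζ α := by
  have h1 := Classical.choose_spec ((ad_at hX hH J g c hg ζ (f.1 * W.eq ζ)).1 (f.2 ζ))
  exact uni hX hH J g c ζ hP h1.1 hα h1.2 h

theorem phi_at (f : (ad J g c hg).sec W) (x : X.P) (hx : ζ ⤳ x) (α : K) (hα : α ∈ X.O x)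
    (h : f.1 * W.eq x - α * (g * H.eq x ^ c) ∈ J.at_ x) :
    phi hX hH J g c hg ζ hP W f * (resD hX ζ (W * (H ^ c)⁻¹)).eq ⟨x, hx⟩ = X.rs ζ α := by
  have hle := hX.spec _ _ hx
  have hHx := H.ne x
  have hHz := H.ne ζ
  have hWx := W.ne x
  have hWz := W.ne ζ
  have hW := quo_un W ζ x hx
  have hHu := un_pow (quo_un H ζ x hx) c
  -- the unit `w = (W - c H).eq ζ / (W - c H).eq x`
  have hw : Un (X.O ζ) ((H.eq x / H.eq ζ) ^ c / (W.eq x / W.eq ζ)) := un_div hHu hW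
  have h1 : phi hX hH J g c hg ζ hP W f = X.rs ζ (α * ((H.eq x / H.eq ζ) ^ c / (W.eq x / W.eq ζ))) := by
    refine phi_eq hX hH J g c hg ζ hP W f _ ((X.O ζ).mul_mem (hle hα) hw.2.1) ?_
    have h2 := at_smul hX hH J ζ _ _ (un_inv hW).2.1 (at_spec hX J hx h)
    have e1 : (W.eq x / W.eq ζ)⁻¹ * (f.1 * W.eq x - α * (g * H.eq x ^ c)) =
        f.1 * W.eq ζ - α * ((H.eq x / H.eq ζ) ^ c / (W.eq x / W.eq ζ)) * (g * H.eq ζ ^ c) := by
      rw [div_pow]
      field_simp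
    rwa [e1] at h2
  have h3 : (resD hX ζ (W * (H ^ c)⁻¹)).eq ⟨x, hx⟩ = X.rs ζ (((H.eq x / H.eq ζ) ^ c / (W.eq x / W.eq ζ))⁻¹) := by
    rw [resD_eq, mul_eq, mul_eq, inv_eq, inv_eq, pow_eq, pow_eq]
    congr 1
    rw [div_pow]
    field_simp
  rw [h1, h3, rs_mul ζ (hle hα) hw.2.1, rs_inv ζ hw, mul_assoc, mul_inv_cancel₀, mul_one]
  exact (rs_ne ζ hw.2.1).2 hw

theorem phi_sec (f : (ad J g c hg).sec W) :
    phi hX hH J g c hg ζ hP W f ∈ secL (resD hX ζ (W * (H ^ c)⁻¹)) 1 := by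
  intro x
  obtain ⟨α, hα, h⟩ := (ad_at hX hH J g c hg x.1 (f.1 * W.eq x.1)).1 (f.2 x.1)
  rw [pow_one]
  have h1 := phi_at hX hH J g c hg ζ hP W f x.1 x.2 α hα h
  change phi hX hH J g c hg ζ hP W f * (resD hX ζ (W * (H ^ c)⁻¹)).eq ⟨x.1, x.2⟩ ∈ _
  rw [h1]
  exact rs_mem_subO hX x.2 hα

theorem phi_ker (f : (ad J g c hg).sec W) : phi hX hH J g c hg ζ hP W f = 0 ↔ f.1 ∈ J.sec W := by
  constructor
  · intro h0 x
    obtain ⟨α, hα, h⟩ := (ad_at hX hH J g c hg x (f.1 * W.eq x)).1 (f.2 x)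
    have h1 : α * (g * H.eq x ^ c) ∈ J.at_ x := by
      rw [mem_iff hX hH J g c ζ hP x α hα]
      intro hx hu
      have h2 := phi_at hX hH J g c hg ζ hP W f x hx α hα h
      rw [h0, zero_mul] at h2
      exact (rs_ne ζ hu.2.1).2 hu h2.symm
    have h2 := (J.at_ x).add_mem h h1
    rwa [sub_add_cancel] at h2
  · intro h
    have h1 : phi hX hH J g c hg ζ hP W f = X.rs ζ 0 := by
      refine phi_eq hX hH J g c hg ζ hP W f 0 (X.O ζ).zero_mem ?_
      rw [zero_mul, sub_zero]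
      exact h ζ
    rw [h1]
    exact rs_zero ζ

theorem sec_le_ad : J.sec W ≤ (ad J g c hg).sec W := fun _ hf x => at_mono (le_ad J g c hg) x (hf x)

theorem phi_fin [Module.Finite k (secL W 1)] : Module.Finite k ((ad J g c hg).sec W) := by
  have h1 : (ad J g c hg).sec W ≤ secL W 1 := by
    intro f hf x
    rw [pow_one]
    exact at_le _ x _ (hf x)
  exact Submodule.finiteDimensional_of_le h1

theorem phi_dim [Module.Finite k (secL W 1)] :
    (ad J g c hg).h W = J.h W + Module.finrank k (LinearMap.range (phi hX hH J g c hg ζ hP W)) := by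
  have := phi_fin J g c hg W
  have h1 := rank_null _ (phi hX hH J g c hg ζ hP W)
  have h2 : LinearMap.ker (phi hX hH J g c hg ζ hP W) = (J.sec W).comap ((ad J g c hg).sec W).subtype := by
    ext f
    rw [LinearMap.mem_ker, phi_ker]
    rfl
  have h3 : Module.finrank k (LinearMap.ker (phi hX hH J g c hg ζ hP W)) = Module.finrank k (J.sec W) := by
    rw [h2]
    exact (Submodule.comapSubtypeEquivOfLe (sec_le_ad J g c hg W)).finrank_eq
  change Module.finrank k ((ad J g c hg).sec W) = Module.finrank k (J.sec W) + _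
  omega

end phi

theorem stp_le (hX : IsVar X) (hH : Ample H) (hF : FinX X) (hZ : FinZ hX) (J : HI H) (g : K) (c : ℕ)
    (hg : g ∈ secL H c) (ζ : X.P) (hP : col J g c = van H ζ) (W : Cart X) :
    (ad J g c hg).h W ≤ J.h W + h0 (resD hX ζ (W * (H ^ c)⁻¹)) 1 := by
  have := hF W
  have := hZ ζ (resD hX ζ (W * (H ^ c)⁻¹))
  rw [phi_dim hX hH J g c hg ζ hP W]
  refine Nat.add_le_add_left ?_ _
  refine fin_mono _ _ ?_
  rintro _ ⟨f, rfl⟩
  exact phi_sec hX hH J g c hg ζ hP W f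

theorem stp_eq (hX : IsVar X) (hH : Ample H) (hF : FinX X) (hS : Ser hX H) (J : HI H) (g : K) (c : ℕ)
    (hg : g ∈ secL H c) (ζ : X.P) (hP : col J g c = van H ζ) (W : Cart X) :
    ∃ n₀ : ℕ, ∀ n ≥ n₀, (ad J g c hg).h (W * H ^ n) =
      J.h (W * H ^ n) + h0 (resD hX ζ (W * H ^ n * (H ^ c)⁻¹)) 1 := by
  obtain ⟨n₀, h0⟩ := hS ζ (W * (H ^ c)⁻¹)
  refine ⟨n₀, fun n hn => ?_⟩
  have := hF (W * H ^ n)
  rw [phi_dim hX hH J g c hg ζ hP (W * H ^ n)]
  have hcomm : W * (H ^ c)⁻¹ * H ^ n = W * H ^ n * (H ^ c)⁻¹ := mul_right_comm _ _ _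
  have hsur := h0 n hn
  rw [hcomm] at hsur
  have h1 : LinearMap.range (phi hX hH J g c hg ζ hP (W * H ^ n)) =
      secL (resD hX ζ (W * H ^ n * (H ^ c)⁻¹)) 1 := by
    apply le_antisymm
    · rintro _ ⟨f, rfl⟩
      exact phi_sec hX hH J g c hg ζ hP _ f
    · intro φ hφ
      obtain ⟨⟨F, hFs⟩, hFφ⟩ := hsur ⟨φ, hφ⟩
      have hval : ∀ x, F * (W * H ^ n * (H ^ c)⁻¹).eq x ∈ X.O x := by
        intro x
        have h2 := hFs x
        rwa [pow_one] at h2
      have e1 : ∀ x, F * g * (W * H ^ n).eq x - F * (W * H ^ n * (H ^ c)⁻¹).eq x * (g * H.eq x ^ c) = 0 := by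
        intro x
        have hHx := H.ne x
        rw [mul_eq (W * H ^ n), inv_eq, pow_eq]
        field_simp
        ring
      have hf : F * g ∈ (ad J g c hg).sec (W * H ^ n) := by
        intro x
        rw [ad_at hX hH]
        refine ⟨F * (W * H ^ n * (H ^ c)⁻¹).eq x, hval x, ?_⟩
        rw [e1]
        exact (J.at_ x).zero_mem
      refine ⟨⟨F * g, hf⟩, ?_⟩
      rw [phi_eq hX hH J g c hg ζ hP _ ⟨F * g, hf⟩ (F * (W * H ^ n * (H ^ c)⁻¹).eq ζ) (hval ζ) (by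
        rw [e1]
        exact (J.at_ ζ).zero_mem)]
      have h2 := congrArg Subtype.val hFφ
      rw [resS_coe, pow_one] at h2
      exact h2
  rw [h1]
  rfl

theorem stp_ne (hX : IsVar X) (hH : Ample H) (J : HI H) (g : K) (c : ℕ)
    (hg : g ∈ secL H c) (ζ : X.P) (hP : col J g c = van H ζ) : J.at_ ζ ≠ (ad J g c hg).at_ ζ := by
  intro h
  have h1 := at_of_mem hX hH _ ζ c g (mem_ad_self J g c hg)
  rw [← h] at h1
  have h2 : (1 : K) * (g * H.eq ζ ^ c) ∈ J.at_ ζ := by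
    rw [one_mul]
    exact h1
  rw [mem_iff hX hH J g c ζ hP ζ 1 (X.O ζ).one_mem] at h2
  exact h2 specializes_rfl (un_one _)

end Pool.Agent.H39.TK
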